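import Pool.Agent.Lib.MP_ca5fa5_an.Defs

set_option autoImplicit false

open Filter Topology

namespace Pool.Agent.HeatRatio

section Abstract

variable {V F : Type*} [NormedAddCommGroup V] [InnerProductSpace ℂ V] [CompleteSpace V]
  [NormedAddCommGroup F] [InnerProductSpace ℂ F] [CompleteSpace F]

/-- `J† J` -/
noncomputable def KK (J : V →L[ℂ] F) : V →L[ℂ] V :=
  (ContinuousLinearMap.adjoint J) ∘L J

/-- `J J†` -/
noncomputable def RR (J : V →L[ℂ] F) : F →L[ℂ] F :=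
  J ∘L (ContinuousLinearMap.adjoint J)

lemma KK_apply (J : V →L[ℂ] F) (v : V) : KK J v = ContinuousLinearMap.adjoint J (J v) := rfl
lemma RR_apply (J : V →L[ℂ] F) (f : F) : RR J f = J (ContinuousLinearMap.adjoint J f) := rfl

lemma RR_eq_KK (J : V →L[ℂ] F) : RR J = KK (ContinuousLinearMap.adjoint J) := by
  unfold RR KK
  rw [ContinuousLinearMap.adjoint_adjoint]

lemma KK_isPositive (J : V →L[ℂ] F) : (KK J).IsPositive :=
  ContinuousLinearMap.isPositive_adjoint_comp_self J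

lemma KK_nonneg (J : V →L[ℂ] F) : 0 ≤ KK J :=
  (ContinuousLinearMap.nonneg_iff_isPositive _).2 (KK_isPositive J)

lemma KK_selfAdjoint (J : V →L[ℂ] F) : IsSelfAdjoint (KK J) := (KK_isPositive J).isSelfAdjoint

lemma KK_norm_le (J : V →L[ℂ] F) (hJ : ‖J‖ ≤ 1) : ‖KK J‖ ≤ 1 := by
  unfold KK
  refine (ContinuousLinearMap.opNorm_comp_le _ _).trans ?_
  rw [LinearIsometryEquiv.norm_map]
  nlinarith [norm_nonneg J]

lemma KK_spectrum (J : V →L[ℂ] F) (hJ : ‖J‖ ≤ 1) : spectrum ℝ (KK J) ⊆ Set.Icc 0 1 := by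
  intro r hr
  refine ⟨spectrum_nonneg_of_nonneg (KK_nonneg J) hr, ?_⟩
  by_cases hV : Nontrivial V
  · have h1 := spectrum.norm_le_norm_of_mem hr
    have h2 := (le_abs_self r).trans (h1.trans (KK_norm_le J hJ))
    exact h2
  · rw [not_nontrivial_iff_subsingleton] at hV
    have : Subsingleton (V →L[ℂ] V) := ⟨fun a b => by ext x; exact Subsingleton.elim _ _⟩
    rw [spectrum.of_subsingleton] at hr
    exact absurd hr (Set.notMem_empty r)

lemma RR_nonneg (J : V →L[ℂ] F) : 0 ≤ RR J := by rw [RR_eq_KK]; exact KK_nonneg _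

lemma RR_selfAdjoint (J : V →L[ℂ] F) : IsSelfAdjoint (RR J) := by
  rw [RR_eq_KK]; exact KK_selfAdjoint _

lemma RR_spectrum (J : V →L[ℂ] F) (hJ : ‖J‖ ≤ 1) : spectrum ℝ (RR J) ⊆ Set.Icc 0 1 := by
  rw [RR_eq_KK]
  refine KK_spectrum _ ?_
  rw [LinearIsometryEquiv.norm_map]
  exact hJ

/-- polynomial intertwining -/
lemma intertwine_poly {A : V →L[ℂ] V} {B : F →L[ℂ] F} (J : V →L[ℂ] F)
    (h : J ∘L A = B ∘L J) (p : Polynomial ℝ) :
    J ∘L (Polynomial.aeval A p) = (Polynomial.aeval B p) ∘L J := by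
  have hpow : ∀ n : ℕ, J ∘L (A ^ n) = (B ^ n) ∘L J := by
    intro n
    induction n with
    | zero => ext x; simp
    | succ n ih =>
      rw [pow_succ, pow_succ']
      ext x
      have h1 : J ((A ^ n) (A x)) = (B ^ n) (J (A x)) := congrArg (fun T => T (A x)) ih
      have h2 : (B ^ n) (J (A x)) = (B ^ n) (B (J x)) := congrArg (fun T => (B ^ n) (T x)) h
      have h3 : (B ^ n) (B (J x)) = B ((B ^ n) (J x)) :=
        congrArg (fun T : F →L[ℂ] F => T (J x)) (Commute.pow_self B n).eq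
      change J ((A ^ n) (A x)) = B ((B ^ n) (J x))
      rw [h1, h2, h3]
  induction p using Polynomial.induction_on' with
  | add p q hp hq =>
    rw [map_add, map_add, ContinuousLinearMap.comp_add, ContinuousLinearMap.add_comp, hp, hq]
  | monomial n a =>
    rw [Polynomial.aeval_monomial, Polynomial.aeval_monomial]
    ext x
    have h1 : J ((A ^ n) x) = (B ^ n) (J x) := congrArg (fun T => T x) (hpow n)
    rw [Algebra.algebraMap_eq_smul_one, Algebra.algebraMap_eq_smul_one, smul_mul_assoc,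
      smul_mul_assoc, one_mul, one_mul]
    change J (a • (A ^ n) x) = a • (B ^ n) (J x)
    rw [← h1]
    exact (J.restrictScalars ℝ).map_smul a _

/-- Intertwining for the continuous functional calculus. -/
lemma intertwine_cfc {A : V →L[ℂ] V} {B : F →L[ℂ] F} (J : V →L[ℂ] F)
    (h : J ∘L A = B ∘L J) (hA : IsSelfAdjoint A) (hB : IsSelfAdjoint B)
    (hsA : spectrum ℝ A ⊆ Set.Icc 0 1) (hsB : spectrum ℝ B ⊆ Set.Icc 0 1)
    (f : ℝ → ℝ) (hf : ContinuousOn f (Set.Icc 0 1)) :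
    J ∘L (cfc f A) = (cfc f B) ∘L J := by
  rw [← sub_eq_zero, ← norm_le_zero_iff]
  refine le_of_forall_pos_le_add fun ε hε => ?_
  rw [zero_add]
  obtain ⟨η, hη, hηε⟩ : ∃ η > 0, 2 * ‖J‖ * η ≤ ε := by
    refine ⟨ε / (2 * (‖J‖ + 1)), by positivity, ?_⟩
    have h1 : 2 * ‖J‖ * (ε / (2 * (‖J‖ + 1))) = ε * (‖J‖ / (‖J‖ + 1)) := by
      field_simp
    rw [h1]
    have h2 : ‖J‖ / (‖J‖ + 1) ≤ 1 := (div_le_one (by positivity)).2 (by linarith)
    nlinarith
  obtain ⟨p, hp⟩ := exists_polynomial_near_of_continuousOn 0 1 f hf η hη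
  have hcont : ∀ s ⊆ Set.Icc (0 : ℝ) 1, ContinuousOn f s := fun s hs => hf.mono hs
  have hpc : ∀ s : Set ℝ, ContinuousOn (fun x => Polynomial.eval x p) s := fun s =>
    p.continuous.continuousOn
  have hdA : ‖cfc f A - Polynomial.aeval A p‖ ≤ η := by
    rw [← cfc_polynomial p A hA, ← cfc_sub _ _ _ (hcont _ hsA) (hpc _)]
    refine norm_cfc_le hη.le fun x hx => ?_
    rw [Real.norm_eq_abs, abs_sub_comm]
    exact (hp x (hsA hx)).le
  have hdB : ‖cfc f B - Polynomial.aeval B p‖ ≤ η := by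
    rw [← cfc_polynomial p B hB, ← cfc_sub _ _ _ (hcont _ hsB) (hpc _)]
    refine norm_cfc_le hη.le fun x hx => ?_
    rw [Real.norm_eq_abs, abs_sub_comm]
    exact (hp x (hsB hx)).le
  have hsplit : J ∘L (cfc f A) - (cfc f B) ∘L J =
      J ∘L (cfc f A - Polynomial.aeval A p) - (cfc f B - Polynomial.aeval B p) ∘L J := by
    rw [ContinuousLinearMap.comp_sub, ContinuousLinearMap.sub_comp, intertwine_poly J h p]
    abel
  rw [hsplit]
  refine (norm_sub_le _ _).trans ?_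
  have h1 := ContinuousLinearMap.opNorm_comp_le J (cfc f A - Polynomial.aeval A p)
  have h2 := ContinuousLinearMap.opNorm_comp_le (cfc f B - Polynomial.aeval B p) J
  have h3 := mul_le_mul_of_nonneg_left hdA (norm_nonneg J)
  have h4 := mul_le_mul_of_nonneg_right hdB (norm_nonneg J)
  linarith

lemma J_cfc (J : V →L[ℂ] F) (hJ : ‖J‖ ≤ 1) (f : ℝ → ℝ) (hf : ContinuousOn f (Set.Icc 0 1)) :
    J ∘L (cfc f (KK J)) = (cfc f (RR J)) ∘L J :=
  intertwine_cfc J rfl (KK_selfAdjoint J) (RR_selfAdjoint J) (KK_spectrum J hJ)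
    (RR_spectrum J hJ) f hf

/-- `(r κ(r))(J J†) = J κ(J† J) J†`. -/
lemma cfc_RR (J : V →L[ℂ] F) (hJ : ‖J‖ ≤ 1) (f : ℝ → ℝ) (hf : ContinuousOn f (Set.Icc 0 1)) :
    cfc (fun r => r * f r) (RR J) =
      J ∘L (cfc f (KK J)) ∘L (ContinuousLinearMap.adjoint J) := by
  have hs := RR_spectrum J hJ
  have h1 : cfc (fun r => r * f r) (RR J) = cfc f (RR J) * RR J := by
    have h2 : (fun r => r * f r) = fun r : ℝ => f r * id r := by
      funext r; exact mul_comm _ _
    rw [h2, cfc_mul _ _ _ (hf.mono hs) continuousOn_id, cfc_id ℝ (RR J) (RR_selfAdjoint J)]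
  rw [h1, ← ContinuousLinearMap.comp_assoc, J_cfc J hJ f hf]
  rfl

end Abstract

end Pool.Agent.HeatRatio
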