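import Pool.Agent.Lib.MP_ca5fa5_an.Green

set_option autoImplicit false

open MeasureTheory Filter Topology Set
open scoped ComplexConjugate ContDiff

namespace Pool.Agent.HeatRatio

lemma bottom_eq {d : ℕ} {Ω : Set (E d)} (H : Coeff d Ω) (W : E d → ℝ) : H.bottom W =
    ⨅ u : {u : E d → ℂ // IsTest Ω u ∧ u ≠ 0},
      ((((H.form u.1 u.1).re - ∫ x in Ω, W x * ‖u.1 x‖ ^ 2) /
        ∫ x in Ω, ‖u.1 x‖ ^ 2 : ℝ) : EReal) := by
  unfold Coeff.bottom wint vol
  simp only [one_mul]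

lemma bottom_nonneg {S : ℝ → ℝ} (hS : Resist S) : 0 ≤ (HH S hS).bottom 0 := by
  rw [bottom_eq]
  refine le_iInf fun u => ?_
  have h1 := HH_nonneg hS u.1 u.2.1
  have h2 : 0 ≤ ∫ x in (univ : Set (E 1)), ‖u.1 x‖ ^ 2 := integral_nonneg fun x => by positivity
  have h3 : ∫ x in (univ : Set (E 1)), (0 : E 1 → ℝ) x * ‖u.1 x‖ ^ 2 = 0 := by simp
  rw [h3, sub_zero]
  exact_mod_cast div_nonneg h1 h2

lemma bottom_le_of_small {S : ℝ → ℝ} (hS : Resist S)
    (h : ∀ ε : ℝ, 0 < ε → ∃ w : ℝ → ℂ, Tst w ∧ 0 < nn w ∧ qq S w < ε * nn w) :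
    (HH S hS).bottom 0 = 0 := by
  refine le_antisymm ?_ (bottom_nonneg hS)
  by_contra hlt
  rw [not_le] at hlt
  obtain ⟨r, hr0, hr1⟩ := EReal.lt_iff_exists_real_btwn.1 hlt
  have hr : 0 < r := by exact_mod_cast hr0
  obtain ⟨w, hw, hn, hq⟩ := h r hr
  have hne : (fun x : E 1 => w (x 0)) ≠ 0 := by
    intro h0
    have h1 : w = 0 := by
      rw [← comp_io w, h0]
      rfl
    rw [h1] at hn
    simp [nn] at hn
  rw [bottom_eq] at hr1
  have h1 := iInf_le (fun u : {u : E 1 → ℂ // IsTest (univ : Set (E 1)) u ∧ u ≠ 0} =>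
      (((((HH S hS).form u.1 u.1).re - ∫ x in (univ : Set (E 1)), (0 : E 1 → ℝ) x * ‖u.1 x‖ ^ 2) /
        ∫ x in (univ : Set (E 1)), ‖u.1 x‖ ^ 2 : ℝ) : EReal)) ⟨_, hw.isTest, hne⟩
  have h3 : ∫ x in (univ : Set (E 1)), (0 : E 1 → ℝ) x * ‖w (x 0)‖ ^ 2 = 0 := by simp
  have h4 := HH_form_self hS hw.isTest
  have h5 := nn_eq (fun x : E 1 => w (x 0))
  rw [comp_io] at h4 h5
  simp only [h3, h4, h5, sub_zero] at h1
  have h6 : qq S w / nn w < r := by rwa [div_lt_iff₀ hn]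
  have h7 := hr1.trans_le h1
  have h8 : r < qq S w / nn w := by exact_mod_cast h7
  linarith

lemma small_of_cut {S h : ℝ → ℝ} {x0 x1 : ℝ} (hS : Resist S) (hh : Cut h x0 x1) (hx0 : 0 < x0)
    (hN : 0 < NN S h x1) {ε : ℝ} (hε : 1 < ε * (x0 * NN S h x1)) :
    ∃ w : ℝ → ℂ, Tst w ∧ 0 < nn w ∧ qq S w < ε * nn w := by
  refine ⟨tf S h x1, tf_tst hS hh, ?_, ?_⟩
  · exact lt_of_lt_of_le (by positivity) (tf_nn_ge hS hh)
  · have h1 := tf_qq hS hh
    have h2 := tf_nn_ge hS hh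
    have hε0 : 0 < ε := by
      by_contra hneg
      rw [not_lt] at hneg
      have : ε * (x0 * NN S h x1) ≤ 0 := mul_nonpos_of_nonpos_of_nonneg hneg (by positivity)
      linarith
    have h3 := mul_le_mul_of_nonneg_left h2 hε0.le
    have h4 : NN S h x1 / 2 < ε * (x0 * NN S h x1 ^ 2 / 2) := by
      have h5 := mul_lt_mul_of_pos_right hε (show 0 < NN S h x1 / 2 by positivity)
      calc NN S h x1 / 2 = 1 * (NN S h x1 / 2) := by ring
        _ < ε * (x0 * NN S h x1) * (NN S h x1 / 2) := h5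
        _ = _ := by ring
    linarith

/-- Criticality when the total resistance is infinite. -/
lemma critical_of_unbounded {S : ℝ → ℝ} (hS : Resist S) (hub : ∀ M : ℝ, ∃ x, M < S x) :
    (HH S hS).Critical := by
  intro W hW hWc _ hW0 hWne
  have hWint : 0 < ∫ x, W x := by
    obtain ⟨x, hx⟩ := hWne
    exact Continuous.integral_pos_of_hasCompactSupport_nonneg_nonzero hW.continuous hWc hW0 hx
  obtain ⟨M, hM⟩ := hWc.isBounded.subset_closedBall 0
  set x0 : ℝ := max M 1 with hx0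
  have hx0pos : 0 < x0 := lt_of_lt_of_le one_pos (le_max_right _ _)
  obtain ⟨b, hb⟩ := hub (S (x0 + 1) + 2 / (∫ x, W x) + 1)
  have hb1 : x0 + 1 < b := by
    by_contra hlt
    have h1 := hS.strictMono.monotone (not_lt.1 hlt)
    have h2 : 0 < 2 / ∫ x, W x := by positivity
    linarith
  obtain ⟨h, hh, hone⟩ := exists_cut (a := x0) (b := b + 1) (ε := 1) hx0pos.le one_pos
    (by linarith)
  have hN := NN_ge hS hh (a := x0 + 1) (b := b) (by linarith) hb1.le (by linarith)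
    (fun s hs => hone s ⟨hs.1, by linarith [hs.2]⟩)
  have hN2 : 2 / (∫ x, W x) < NN S h (b + 1) := by linarith
  have hNpos : 0 < NN S h (b + 1) := lt_trans (by positivity) hN2
  have htst := tf_tst hS hh
  have hnn : 0 < nn (tf S h (b + 1)) := lt_of_lt_of_le (by positivity) (tf_nn_ge hS hh)
  have hne : (fun x : E 1 => tf S h (b + 1) (x 0)) ≠ 0 := by
    intro h0
    have h1 : tf S h (b + 1) = 0 := by
      rw [← comp_io (tf S h (b + 1)), h0]
      rfl
    rw [h1] at hnn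
    simp [nn] at hnn
  rw [bottom_eq]
  refine lt_of_le_of_lt (iInf_le _ ⟨_, htst.isTest, hne⟩) ?_
  have h4 := HH_form_self hS htst.isTest
  have h5 := nn_eq (fun x : E 1 => tf S h (b + 1) (x 0))
  rw [comp_io] at h4 h5
  simp only [h4, h5]
  have h6 : ∫ x in (univ : Set (E 1)), W x * ‖tf S h (b + 1) (x 0)‖ ^ 2 =
      (NN S h (b + 1) / 2) ^ 2 * ∫ x, W x := by
    rw [Measure.restrict_univ, ← integral_const_mul]
    congr 1
    funext x
    by_cases hx : x ∈ tsupport W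
    · have h7 := hM hx
      rw [mem_closedBall_zero_iff] at h7
      have h8 : |x 0| ≤ x0 := by
        have h9 : |x 0| ≤ ‖x‖ := by
          have := EuclideanSpace.norm_eq x
          rw [this]
          simp [Real.sqrt_sq_eq_abs]
        exact h9.trans (h7.trans (le_max_left _ _))
      rw [tf_of_le hS hh h8, Complex.norm_real, Real.norm_eq_abs, sq_abs]
      ring
    · rw [image_eq_zero_of_notMem_tsupport hx]
      ring
  rw [h6]
  have h7 := tf_qq hS hh
  have h8 : qq S (tf S h (b + 1)) - (NN S h (b + 1) / 2) ^ 2 * ∫ x, W x < 0 := by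
    rw [div_lt_iff₀ hWint] at hN2
    have h9 := mul_lt_mul_of_pos_right hN2 (show 0 < NN S h (b + 1) / 4 by positivity)
    have h10 : NN S h (b + 1) * (∫ x, W x) * (NN S h (b + 1) / 4) =
        (NN S h (b + 1) / 2) ^ 2 * ∫ x, W x := by ring
    linarith
  exact_mod_cast div_neg_of_neg_of_pos h8 hnn

/-- Subcriticality when the total resistance is finite. -/
lemma subcritical_of_bounded {S : ℝ → ℝ} (hS : Resist S) {G : ℝ} (hG : ∀ x, S x ≤ G) :
    (HH S hS).Subcritical := by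
  have hGpos : 0 < G := by
    have h1 := hG 1
    have h2 := hS.strictMono (show (0 : ℝ) < 1 by norm_num)
    rw [hS.zero] at h2
    linarith
  have hpi := Real.pi_pos
  refine ⟨fun x => (2 * G * Real.pi)⁻¹ * (1 + (x 0) ^ 2)⁻¹, ?_, ?_, ?_⟩
  · refine ContDiff.contDiffOn ?_
    have hc : ContDiff ℝ ∞ (fun x : E 1 => x 0) :=
      (EuclideanSpace.proj (0 : Fin 1) : E 1 →L[ℝ] ℝ).contDiff
    refine contDiff_const.mul (ContDiff.inv (contDiff_const.add (hc.pow 2)) fun x => ?_)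
    positivity
  · intro x _
    positivity
  · intro u hu
    unfold wint vol
    rw [HH_form_self hS hu, Measure.restrict_univ, integral_E1]
    have h1 : ∀ s : ℝ, (2 * G * Real.pi)⁻¹ * (1 + (io s 0) ^ 2)⁻¹ * ‖u (io s)‖ ^ 2 ≤
        (2 * G * Real.pi)⁻¹ * (2 * G * qq S (u ∘ io)) * (1 + s ^ 2)⁻¹ := by
      intro s
      rw [io_apply]
      have h2 := point_hardy hS hu.tst hG s
      have h3 : ‖u (io s)‖ ^ 2 ≤ 2 * G * qq S (u ∘ io) := h2
      have h4 := mul_le_mul_of_nonneg_left h3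
        (show 0 ≤ (2 * G * Real.pi)⁻¹ * (1 + s ^ 2)⁻¹ by positivity)
      linarith
    calc ∫ s, (2 * G * Real.pi)⁻¹ * (1 + (io s 0) ^ 2)⁻¹ * ‖u (io s)‖ ^ 2
        ≤ ∫ s, (2 * G * Real.pi)⁻¹ * (2 * G * qq S (u ∘ io)) * (1 + s ^ 2)⁻¹ := by
          refine integral_mono_of_nonneg (Eventually.of_forall fun s => by positivity) ?_
            (Eventually.of_forall h1)
          exact integrable_inv_one_add_sq.const_mul _
      _ = qq S (u ∘ io) := by
          rw [integral_const_mul, integral_univ_inv_one_add_sq]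
          field_simp

end Pool.Agent.HeatRatio
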