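import Mathlib

/-!
Definitions for the heat kernel ratio question: operators `H = -∇·(A∇) + V` on an open set
`Ω ⊆ ℝ^d`, their closed quadratic forms, the resolvent `(H+1)⁻¹`, the semigroup `e^{-tH}` and its
continuous integral kernel, criticality and subcriticality.
-/

set_option autoImplicit false

open MeasureTheory Filter Topology
open scoped ComplexConjugate ContDiff

namespace Pool.Agent.HeatRatio

/-! ### Self-adjoint operators given by forms on `L²(μ)`, and their heat kernels -/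

section General

variable {α : Type} [MeasurableSpace α]

/-- The complex Hilbert space `L²(μ)`. -/
abbrev L2 (μ : Measure α) : Type := Lp ℂ 2 μ

/-- The bounded operators on `L²(μ)`. -/
abbrev Op (μ : Measure α) : Type := L2 μ →L[ℂ] L2 μ

/-- The function `R f` for `f ∈ L²(μ)`. -/
noncomputable abbrev Op.fn {μ : Measure α} (R : Op μ) (f : L2 μ) : α → ℂ := ⇑(R f)

/-- `⟨v, f⟩ = ∫ conj(v) f dμ`. -/
noncomputable def pair (μ : Measure α) (v f : α → ℂ) : ℂ := ∫ x, conj (v x) * f x ∂μ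

/-- `φ n → g` in `L²(μ)`. -/
def ConvL2 (μ : Measure α) (φ : ℕ → α → ℂ) (g : α → ℂ) : Prop :=
  Tendsto (fun n => eLpNorm (fun x => φ n x - g x) 2 μ) atTop (𝓝 0)

/-- The sequence `φ n` is Cauchy for the quadratic form `a`. -/
def FormCauchy (a : (α → ℂ) → (α → ℂ) → ℂ) (φ : ℕ → α → ℂ) : Prop :=
  ∀ ε : ℝ, 0 < ε → ∃ N, ∀ m ≥ N, ∀ n ≥ N, (a (φ m - φ n) (φ m - φ n)).re < ε

/-- `R = (H + 1)⁻¹`, where `H ≥ 0` is the self-adjoint operator in `L²(μ)` associated with the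
closure of the sesquilinear form `a` (conjugate linear in its first argument) with domain the set
`T` of test functions: for every `f ∈ L²(μ)` there are `φ n ∈ T` which are Cauchy for the form
and converge to `R f` in `L²(μ)` (that is, `R f` is in the domain of the closed form and `φ n`
converges to it there), and `a(v, R f) + ⟨v, R f⟩ = ⟨v, f⟩` for all `v ∈ T`, where
`a(v, R f) = lim a(v, φ n)`. -/
def IsResolvent (μ : Measure α) (T : Set (α → ℂ)) (a : (α → ℂ) → (α → ℂ) → ℂ) (R : Op μ) : Prop :=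
  ∀ f : L2 μ, ∃ φ : ℕ → α → ℂ, (∀ n, φ n ∈ T) ∧ ConvL2 μ φ (R.fn f) ∧ FormCauchy a φ ∧
    ∀ v ∈ T, Tendsto (fun n => a v (φ n) + pair μ v (φ n)) atTop (𝓝 (pair μ v f))

/-- `e^{-tH}` for `t > 0`, written with the continuous functional calculus as a function of
`R = (H + 1)⁻¹`: the spectral value `x ≥ 0` of `H` corresponds to `r = 1/(x+1)`, so `e^{-tH}` is
`g(R)` with `g(r) = exp(-t(1/r - 1))` for `r > 0` and `g(0) = 0`. -/
noncomputable def heatOp {F : Type*} [NormedAddCommGroup F] [InnerProductSpace ℂ F]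
    [CompleteSpace F] (R : F →L[ℂ] F) (t : ℝ) : F →L[ℂ] F :=
  cfc (fun r : ℝ => if r ≤ 0 then 0 else Real.exp (-(t * (1 / r - 1)))) R

/-- `e^{-tH}` as an operator on `L²(μ)`. -/
noncomputable def Op.heat {μ : Measure α} (R : Op μ) (t : ℝ) : Op μ := heatOp R t

/-- `G` is the integral operator with kernel `k`. -/
def Op.HasKernel {μ : Measure α} (G : Op μ) (k : α → α → ℝ) : Prop :=
  ∀ f : L2 μ, G.fn f =ᵐ[μ] fun x => ∫ y, (k x y : ℂ) * f y ∂μ

/-- `k t x y` is the continuous integral kernel on `Ω × Ω` of `e^{-tH}`, `t > 0`, where `H` is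
the self-adjoint operator in `L²(μ)` associated with the closure of the form `a` on `T`. -/
def IsHeatKernel [TopologicalSpace α] (μ : Measure α) (T : Set (α → ℂ))
    (a : (α → ℂ) → (α → ℂ) → ℂ) (Ω : Set α) (k : ℝ → α → α → ℝ) : Prop :=
  ∃ R : Op μ, IsResolvent μ T a R ∧ ∀ t : ℝ, 0 < t →
    ContinuousOn (fun p : α × α => k t p.1 p.2) (Ω ×ˢ Ω) ∧ (R.heat t).HasKernel (k t)

end General

/-! ### The operators `-∇·(A∇) + V` -/

/-- `ℝ^d`. -/
abbrev E (d : ℕ) : Type := EuclideanSpace ℝ (Fin d)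

/-- Lebesgue measure on `Ω`. -/
noncomputable abbrev vol {d : ℕ} (Ω : Set (E d)) : Measure (E d) := volume.restrict Ω

/-- `u ∈ C_c^∞(Ω; ℂ)`. -/
def IsTest {d : ℕ} (Ω : Set (E d)) (u : E d → ℂ) : Prop :=
  ContDiff ℝ ∞ u ∧ HasCompactSupport u ∧ tsupport u ⊆ Ω

/-- The partial derivative `∂_i u (x)`. -/
noncomputable def pd {d : ℕ} (i : Fin d) (u : E d → ℂ) (x : E d) : ℂ :=
  fderiv ℝ u x (EuclideanSpace.single i 1)

/-- The coefficients of an operator `H = -∇·(A∇) + V` on `Ω`: `A` is real symmetric, with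
measurable and locally bounded entries and locally uniformly positive definite; `V` is real,
measurable and locally bounded. -/
structure Coeff (d : ℕ) (Ω : Set (E d)) where
  /-- the matrix -/
  A : E d → Matrix (Fin d) (Fin d) ℝ
  /-- the potential -/
  V : E d → ℝ
  measA : ∀ i j, Measurable fun x => A x i j
  measV : Measurable V
  symm : ∀ x ∈ Ω, (A x).IsSymm
  bddA : ∀ K ⊆ Ω, IsCompact K → ∃ C : ℝ, ∀ x ∈ K, ∀ i j, |A x i j| ≤ C
  bddV : ∀ K ⊆ Ω, IsCompact K → ∃ C : ℝ, ∀ x ∈ K, |V x| ≤ C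
  ell : ∀ K ⊆ Ω, IsCompact K → ∃ c : ℝ, 0 < c ∧ ∀ x ∈ K, ∀ ξ : Fin d → ℝ,
    c * ∑ i, ξ i ^ 2 ≤ ∑ i, ∑ j, A x i j * ξ i * ξ j

/-- The sesquilinear form `∫_Ω (conj(∇u) · A ∇v + V conj(u) v) dx` (conjugate linear in the first
variable). -/
noncomputable def Coeff.form {d : ℕ} {Ω : Set (E d)} (H : Coeff d Ω) (u v : E d → ℂ) : ℂ :=
  ∫ x, ((∑ i, ∑ j, (H.A x i j : ℂ) * (conj (pd i u x) * pd j v x)) +
    (H.V x : ℂ) * (conj (u x) * v x)) ∂(vol Ω)

/-- `∫_Ω W |u|² dx`. -/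
noncomputable def wint {d : ℕ} (Ω : Set (E d)) (W : E d → ℝ) (u : E d → ℂ) : ℝ :=
  ∫ x, W x * ‖u x‖ ^ 2 ∂(vol Ω)

/-- The bottom of the spectrum of the Friedrichs realisation of `H - W`, given by the Rayleigh
quotient over `C_c^∞(Ω)`. -/
noncomputable def Coeff.bottom {d : ℕ} {Ω : Set (E d)} (H : Coeff d Ω) (W : E d → ℝ) : EReal :=
  ⨅ u : {u : E d → ℂ // IsTest Ω u ∧ u ≠ 0},
    ((((H.form u.1 u.1).re - wint Ω W u.1) / wint Ω (fun _ => 1) u.1 : ℝ) : EReal)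

/-- `H` is critical: `inf σ(H - W) < 0` for all `W ∈ C_c^∞(Ω)` with `W ≥ 0` and `W ≢ 0`. -/
def Coeff.Critical {d : ℕ} {Ω : Set (E d)} (H : Coeff d Ω) : Prop :=
  ∀ W : E d → ℝ, ContDiff ℝ ∞ W → HasCompactSupport W → tsupport W ⊆ Ω → (∀ x, 0 ≤ W x) →
    (∃ x, W x ≠ 0) → H.bottom W < 0

/-- `H` is subcritical: `H ≥ ρ` in the form sense for some smooth `ρ > 0` on `Ω`. -/
def Coeff.Subcritical {d : ℕ} {Ω : Set (E d)} (H : Coeff d Ω) : Prop :=
  ∃ ρ : E d → ℝ, ContDiffOn ℝ ∞ ρ Ω ∧ (∀ x ∈ Ω, 0 < ρ x) ∧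
    ∀ u, IsTest Ω u → wint Ω ρ u ≤ (H.form u u).re

/-- `k t x y` is the continuous integral kernel of `e^{-tH}`, `t > 0`, on `Ω × Ω`. -/
def Coeff.IsHeatKernel {d : ℕ} {Ω : Set (E d)} (H : Coeff d Ω) (k : ℝ → E d → E d → ℝ) : Prop :=
  HeatRatio.IsHeatKernel (vol Ω) {u | IsTest Ω u} H.form Ω k

end Pool.Agent.HeatRatio
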