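import Mathlib

set_option autoImplicit false

open Filter Topology

namespace Pool.Agent.HeatRatio

/-- `e^{-t x} / r` with `x = 1/r - 1`. -/
noncomputable def kap (t r : ℝ) : ℝ := if r ≤ 0 then 0 else Real.exp (-(t * (1 / r - 1))) / r

/-- `1 / (r (x + l))` with `x = 1/r - 1`. -/
noncomputable def ww (l r : ℝ) : ℝ := 1 / (1 - (1 - l) * r)

lemma kap_nonneg (t r : ℝ) : 0 ≤ kap t r := by
  unfold kap
  split_ifs with h
  · exact le_rfl
  · have : 0 < r := not_le.1 h
    positivity

lemma mul_kap (t r : ℝ) :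
    r * kap t r = if r ≤ 0 then 0 else Real.exp (-(t * (1 / r - 1))) := by
  unfold kap
  split_ifs with h
  · exact mul_zero r
  · have : r ≠ 0 := (not_le.1 h).ne'
    field_simp

lemma kap_bound {t : ℝ} (ht : 0 < t) (r : ℝ) : |kap t r| ≤ (2 * Real.exp t / t ^ 2) * |r| := by
  rw [abs_of_nonneg (kap_nonneg t r)]
  unfold kap
  split_ifs with h
  · positivity
  · have hr : 0 < r := not_le.1 h
    have h1 : Real.exp (-(t * (1 / r - 1))) = Real.exp t * Real.exp (-(t / r)) := by
      rw [← Real.exp_add]
      congr 1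
      ring
    have h2 : Real.exp (-(t / r)) ≤ 2 * r ^ 2 / t ^ 2 := by
      have h3 := Real.quadratic_le_exp_of_nonneg (x := t / r) (by positivity)
      have h4 : (t / r) ^ 2 / 2 ≤ Real.exp (t / r) := by
        have : 0 ≤ t / r := by positivity
        linarith
      rw [Real.exp_neg, inv_le_comm₀ (Real.exp_pos _) (by positivity)]
      refine le_trans (le_of_eq ?_) h4
      field_simp
    rw [h1, abs_of_pos hr, div_le_iff₀ hr]
    calc Real.exp t * Real.exp (-(t / r)) ≤ Real.exp t * (2 * r ^ 2 / t ^ 2) :=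
          mul_le_mul_of_nonneg_left h2 (Real.exp_pos t).le
      _ = 2 * Real.exp t / t ^ 2 * r * r := by ring

lemma kap_continuous {t : ℝ} (ht : 0 < t) : Continuous (kap t) := by
  rw [continuous_iff_continuousAt]
  intro r
  rcases lt_trichotomy r 0 with h | h | h
  · have : kap t =ᶠ[𝓝 r] fun _ => 0 := by
      filter_upwards [Iio_mem_nhds h] with s hs
      unfold kap
      rw [if_pos (le_of_lt hs)]
    exact this.continuousAt
  · subst h
    unfold ContinuousAt
    have h0 : kap t 0 = 0 := by unfold kap; rw [if_pos le_rfl]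
    rw [h0]
    refine squeeze_zero_norm (a := fun r => (2 * Real.exp t / t ^ 2) * |r|)
      (fun s => ?_) ?_
    · rw [Real.norm_eq_abs]; exact kap_bound ht s
    · have : Tendsto (fun r : ℝ => (2 * Real.exp t / t ^ 2) * |r|) (𝓝 0)
          (𝓝 ((2 * Real.exp t / t ^ 2) * |(0 : ℝ)|)) :=
        (continuous_const.mul continuous_abs).tendsto 0
      simpa using this
  · have : kap t =ᶠ[𝓝 r] fun s => Real.exp (-(t * (1 / s - 1))) / s := by
      filter_upwards [Ioi_mem_nhds h] with s hs
      unfold kap
      rw [if_neg (not_le.2 hs)]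
    refine ContinuousAt.congr ?_ this.symm
    have hr : r ≠ 0 := h.ne'
    fun_prop (disch := assumption)

lemma ww_den_pos {l r : ℝ} (hl : 0 < l) (hr : r ∈ Set.Icc (0 : ℝ) 1) : 0 < 1 - (1 - l) * r := by
  obtain ⟨h0, h1⟩ := hr
  by_cases h : l ≤ 1
  · nlinarith
  · nlinarith

lemma ww_pos {l r : ℝ} (hl : 0 < l) (hr : r ∈ Set.Icc (0 : ℝ) 1) : 0 < ww l r :=
  one_div_pos.2 (ww_den_pos hl hr)

lemma ww_continuousOn {l : ℝ} (hl : 0 < l) : ContinuousOn (ww l) (Set.Icc 0 1) := by
  unfold ww
  refine ContinuousOn.div continuousOn_const (by fun_prop) fun r hr => (ww_den_pos hl hr).ne'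

lemma ww_zero (l : ℝ) : ww l 0 = 1 := by unfold ww; simp

lemma ww_eq {l r : ℝ} (hl : 0 < l) (hr0 : 0 < r) (hr1 : r ≤ 1) :
    ww l r = 1 / r * (1 / ((1 / r - 1) + l)) := by
  unfold ww
  have hx : 0 ≤ 1 / r - 1 := by
    rw [sub_nonneg, le_div_iff₀ hr0]; linarith
  have h1 : (1 / r - 1) + l ≠ 0 := by positivity
  have h2 : 1 - (1 - l) * r = r * ((1 / r - 1) + l) := by field_simp; ring
  rw [h2, one_div_mul_one_div]

lemma kap_upper {T r : ℝ} (hT : 0 < T) (hr : r ∈ Set.Icc (0 : ℝ) 1) :
    kap T r ≤ 3 / T * (ww (1 / T) r - ww (2 / T) r) := by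
  obtain ⟨h0, h1⟩ := hr
  rcases h0.eq_or_lt with h | hr0
  · subst h
    rw [ww_zero, ww_zero, sub_self, mul_zero]
    unfold kap
    rw [if_pos le_rfl]
  · rw [ww_eq (by positivity) hr0 h1, ww_eq (by positivity) hr0 h1]
    unfold kap
    rw [if_neg (not_le.2 hr0)]
    have hx : 0 ≤ 1 / r - 1 := by
      rw [sub_nonneg, le_div_iff₀ hr0]; linarith
    generalize 1 / r - 1 = x at hx
    have hy : 0 ≤ T * x := by positivity
    have h3 : Real.exp (-(T * x)) ≤ 3 / ((T * x + 1) * (T * x + 2)) := by
      have h4 := Real.quadratic_le_exp_of_nonneg hy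
      rw [Real.exp_neg, inv_le_comm₀ (Real.exp_pos _) (by positivity)]
      refine le_trans ?_ h4
      rw [inv_div, div_le_iff₀ (by norm_num)]
      nlinarith
    have h5 : 3 / T * (1 / r * (1 / (x + 1 / T)) - 1 / r * (1 / (x + 2 / T))) =
        3 / ((T * x + 1) * (T * x + 2)) / r := by
      have : x + 1 / T ≠ 0 := by positivity
      have : x + 2 / T ≠ 0 := by positivity
      have : T * x + 1 ≠ 0 := by positivity
      have : T * x + 2 ≠ 0 := by positivity
      field_simp
      ring
    rw [h5]
    exact div_le_div_of_nonneg_right h3 hr0.le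

lemma kap_lower {T r l L : ℝ} (hT : 0 < T) (hr : r ∈ Set.Icc (0 : ℝ) 1) (hl : 0 < l)
    (hlL : l ≤ L) :
    l / Real.exp 1 * (ww l r - ww L r - 2 * L * T * ww (1 / T) r) ≤ kap T r := by
  obtain ⟨h0, h1⟩ := hr
  have hL : 0 < L := hl.trans_le hlL
  rcases h0.eq_or_lt with h | hr0
  · subst h
    rw [ww_zero, ww_zero, ww_zero]
    unfold kap
    rw [if_pos le_rfl]
    have : 0 < l / Real.exp 1 * (2 * L * T) := by positivity
    linarith
  · rw [ww_eq (by positivity) hr0 h1, ww_eq (by positivity) hr0 h1,
      ww_eq (by positivity) hr0 h1]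
    unfold kap
    rw [if_neg (not_le.2 hr0)]
    have hx : 0 ≤ 1 / r - 1 := by
      rw [sub_nonneg, le_div_iff₀ hr0]; linarith
    generalize 1 / r - 1 = x at hx
    have key : l / Real.exp 1 * (1 / (x + l) - 1 / (x + L) - 2 * L * T * (1 / (x + 1 / T))) ≤
        Real.exp (-(T * x)) := by
      by_cases hy : 1 ≤ T * x
      · have hx0 : 0 < x := by
          by_contra hneg
          have : x = 0 := le_antisymm (not_lt.1 hneg) hx
          rw [this, mul_zero] at hy
          linarith
        have h2 : 1 / (x + l) - 1 / (x + L) ≤ L / x ^ 2 := by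
          have h3 : 1 / (x + l) ≤ 1 / x := one_div_le_one_div_of_le hx0 (by linarith)
          have h4 : 1 / x - 1 / (x + L) = L / (x * (x + L)) := by
            have : x + L ≠ 0 := by positivity
            field_simp
            ring
          have h5 : L / (x * (x + L)) ≤ L / x ^ 2 := by
            apply div_le_div_of_nonneg_left hL.le (by positivity)
            nlinarith
          linarith
        have h6 : L / x ^ 2 ≤ 2 * L * T * (1 / (x + 1 / T)) := by
          have h7 : 1 / T ≤ x := by
            rw [div_le_iff₀ hT]; linarith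
          have h8 : 1 / (2 * x) ≤ 1 / (x + 1 / T) :=
            one_div_le_one_div_of_le (by positivity) (by linarith)
          have h9 : L / x ^ 2 ≤ 2 * L * T * (1 / (2 * x)) := by
            rw [div_le_iff₀ (by positivity)]
            have : 2 * L * T * (1 / (2 * x)) * x ^ 2 = L * (T * x) := by
              field_simp
            rw [this]
            nlinarith
          exact h9.trans (mul_le_mul_of_nonneg_left h8 (by positivity))
        have h10 : l / Real.exp 1 *
            (1 / (x + l) - 1 / (x + L) - 2 * L * T * (1 / (x + 1 / T))) ≤ 0 :=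
          mul_nonpos_of_nonneg_of_nonpos (by positivity) (by linarith)
        exact h10.trans (Real.exp_pos _).le
      · have hy' : T * x ≤ 1 := (not_le.1 hy).le
        have h2 : 1 / (x + l) - 1 / (x + L) - 2 * L * T * (1 / (x + 1 / T)) ≤ 1 / l := by
          have h3 : 1 / (x + l) ≤ 1 / l := one_div_le_one_div_of_le hl (by linarith)
          have h4 : 0 ≤ 1 / (x + L) := by positivity
          have h5 : 0 ≤ 2 * L * T * (1 / (x + 1 / T)) := by positivity
          linarith
        have h3 : l / Real.exp 1 *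
            (1 / (x + l) - 1 / (x + L) - 2 * L * T * (1 / (x + 1 / T))) ≤
            l / Real.exp 1 * (1 / l) := mul_le_mul_of_nonneg_left h2 (by positivity)
        have h4 : l / Real.exp 1 * (1 / l) = Real.exp (-1) := by
          rw [Real.exp_neg]
          field_simp
        rw [h4] at h3
        exact h3.trans (Real.exp_le_exp.2 (by linarith))
    have h6 : l / Real.exp 1 * (1 / r * (1 / (x + l)) - 1 / r * (1 / (x + L)) -
        2 * L * T * (1 / r * (1 / (x + 1 / T)))) =
        (l / Real.exp 1 * (1 / (x + l) - 1 / (x + L) - 2 * L * T * (1 / (x + 1 / T)))) / r := by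
      ring
    rw [h6]
    exact div_le_div_of_nonneg_right key hr0.le

end Pool.Agent.HeatRatio
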