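import Pool.Agent.Lib.MP_ca5fa5_an.Abstract
import Pool.Agent.Lib.MP_ca5fa5_an.Scalar

set_option autoImplicit false

open Filter Topology

namespace Pool.Agent.HeatRatio

section Abstract

variable {V F : Type*} [NormedAddCommGroup V] [InnerProductSpace ℂ V] [CompleteSpace V]
  [NormedAddCommGroup F] [InnerProductSpace ℂ F] [CompleteSpace F]

/-- The Green function quantity `⟨d, (1 - (1-l) J†J)⁻¹ d⟩`. -/
noncomputable def Phi (J : V →L[ℂ] F) (d : V) (l : ℝ) : ℝ :=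
  (inner ℂ d (cfc (ww l) (KK J) d)).re

/-- The heat kernel quantity `⟨d, κ_t(J†J) d⟩`. -/
noncomputable def hk (J : V →L[ℂ] F) (d : V) (t : ℝ) : ℝ :=
  (inner ℂ d (cfc (kap t) (KK J) d)).re

lemma re_cfc_mono (J : V →L[ℂ] F) (hJ : ‖J‖ ≤ 1) (d : V) {f g : ℝ → ℝ}
    (hf : ContinuousOn f (Set.Icc 0 1)) (hg : ContinuousOn g (Set.Icc 0 1))
    (h : ∀ r ∈ Set.Icc (0 : ℝ) 1, f r ≤ g r) :
    (inner ℂ d (cfc f (KK J) d)).re ≤ (inner ℂ d (cfc g (KK J) d)).re := by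
  have hs := KK_spectrum J hJ
  have h1 : cfc f (KK J) ≤ cfc g (KK J) :=
    cfc_mono (fun x hx => h x (hs hx)) (hf.mono hs) (hg.mono hs)
  rw [ContinuousLinearMap.le_def] at h1
  have h2 := h1.inner_nonneg_right d
  have h3 := (Complex.le_def.1 h2).1
  rw [sub_apply, inner_sub_right, Complex.sub_re, Complex.zero_re] at h3
  linarith

lemma heatOp_RR (J : V →L[ℂ] F) (hJ : ‖J‖ ≤ 1) {t : ℝ} (ht : 0 < t) :
    heatOp (RR J) t = J ∘L (cfc (kap t) (KK J)) ∘L (ContinuousLinearMap.adjoint J) := by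
  rw [← cfc_RR J hJ (kap t) (kap_continuous ht).continuousOn]
  unfold heatOp
  congr 1
  funext r
  rw [mul_kap]

lemma hk_upper (J : V →L[ℂ] F) (hJ : ‖J‖ ≤ 1) (d : V) {T : ℝ} (hT : 0 < T) :
    hk J d T ≤ 3 / T * (Phi J d (1 / T) - Phi J d (2 / T)) := by
  have hs := KK_spectrum J hJ
  have hc1 := ww_continuousOn (l := 1 / T) (by positivity)
  have hc2 := ww_continuousOn (l := 2 / T) (by positivity)
  have h1 := re_cfc_mono J hJ d (f := kap T)
    (g := fun r => (3 / T) * (ww (1 / T) r - ww (2 / T) r))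
    (kap_continuous hT).continuousOn (continuousOn_const.mul (hc1.sub hc2))
    (fun r hr => kap_upper hT hr)
  refine h1.trans (le_of_eq ?_)
  rw [cfc_const_mul (3 / T) (fun r => ww (1 / T) r - ww (2 / T) r) _ ((hc1.sub hc2).mono hs),
    cfc_sub (ww (1 / T)) (ww (2 / T)) _ (hc1.mono hs) (hc2.mono hs)]
  unfold Phi
  change (inner ℂ d ((3 / T : ℝ) • ((cfc (ww (1 / T)) (KK J)) d - (cfc (ww (2 / T)) (KK J)) d))).re = _
  rw [inner_smul_right_eq_smul, inner_sub_right, Complex.smul_re, Complex.sub_re, smul_eq_mul]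

lemma hk_lower (J : V →L[ℂ] F) (hJ : ‖J‖ ≤ 1) (d : V) {T l L : ℝ} (hT : 0 < T) (hl : 0 < l)
    (hlL : l ≤ L) :
    l / Real.exp 1 * (Phi J d l - Phi J d L - 2 * L * T * Phi J d (1 / T)) ≤ hk J d T := by
  have hs := KK_spectrum J hJ
  have hc1 := ww_continuousOn (l := l) hl
  have hc2 := ww_continuousOn (l := L) (hl.trans_le hlL)
  have hc3 := ww_continuousOn (l := 1 / T) (by positivity)
  have h1 := re_cfc_mono J hJ d (g := kap T)
    (f := fun r => (l / Real.exp 1) * (ww l r - ww L r - (2 * L * T) * ww (1 / T) r))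
    (continuousOn_const.mul ((hc1.sub hc2).sub (continuousOn_const.mul hc3)))
    (kap_continuous hT).continuousOn (fun r hr => kap_lower hT hr hl hlL)
  refine le_trans (le_of_eq ?_) h1
  rw [cfc_const_mul (l / Real.exp 1) (fun r => ww l r - ww L r - (2 * L * T) * ww (1 / T) r) _
      (((hc1.sub hc2).sub (continuousOn_const.mul hc3)).mono hs),
    cfc_sub (fun r => ww l r - ww L r) (fun r => (2 * L * T) * ww (1 / T) r) _
      ((hc1.sub hc2).mono hs) ((continuousOn_const.mul hc3).mono hs),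
    cfc_sub (ww l) (ww L) _ (hc1.mono hs) (hc2.mono hs),
    cfc_const_mul (2 * L * T) (ww (1 / T)) _ (hc3.mono hs)]
  unfold Phi
  change _ = (inner ℂ d ((l / Real.exp 1 : ℝ) • (((cfc (ww l) (KK J)) d - (cfc (ww L) (KK J)) d) -
    (2 * L * T : ℝ) • (cfc (ww (1 / T)) (KK J)) d))).re
  rw [inner_smul_right_eq_smul, inner_sub_right, inner_sub_right, inner_smul_right_eq_smul,
    Complex.smul_re, Complex.sub_re, Complex.sub_re, Complex.smul_re]
  simp only [smul_eq_mul]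

/-- `(1 - (1-l) K) w_l(K) = 1`. -/
lemma ww_inv (J : V →L[ℂ] F) (hJ : ‖J‖ ≤ 1) {l : ℝ} (hl : 0 < l) (d : V) :
    cfc (ww l) (KK J) d - ((1 - l : ℝ) : ℂ) • KK J (cfc (ww l) (KK J) d) = d := by
  have hs := KK_spectrum J hJ
  have hc1 := ww_continuousOn (l := l) hl
  have h1 : cfc (fun r : ℝ => (1 : ℝ) * ww l r - (1 - l) * (id r * ww l r)) (KK J) = 1 := by
    have h2 : Set.EqOn (fun r : ℝ => (1 : ℝ) * ww l r - (1 - l) * (id r * ww l r))
        (fun _ => (1 : ℝ)) (spectrum ℝ (KK J)) := by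
      intro r hr
      have h3 := ww_den_pos hl (hs hr)
      simp only [id]
      unfold ww
      field_simp
    rw [cfc_congr h2, cfc_const_one ℝ (KK J) (KK_selfAdjoint J)]
  rw [cfc_sub (fun r : ℝ => (1 : ℝ) * ww l r) (fun r : ℝ => (1 - l) * (id r * ww l r)) _
      ((continuousOn_const.mul hc1).mono hs)
      ((continuousOn_const.mul (continuousOn_id.mul hc1)).mono hs),
    cfc_const_mul (1 : ℝ) (ww l) _ (hc1.mono hs),
    cfc_const_mul (1 - l) (fun r : ℝ => id r * ww l r) _ ((continuousOn_id.mul hc1).mono hs),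
    cfc_mul (id : ℝ → ℝ) (ww l) _ continuousOn_id (hc1.mono hs),
    cfc_id ℝ (KK J) (KK_selfAdjoint J)] at h1
  have h4 := congrArg (fun T : V →L[ℂ] V => T d) h1
  change ((1 : ℝ) • (cfc (ww l) (KK J)) d) - ((1 - l : ℝ) • KK J ((cfc (ww l) (KK J)) d)) = d at h4
  rw [one_smul] at h4
  rw [Complex.coe_smul]
  exact h4

lemma Phi_energy (J : V →L[ℂ] F) (hJ : ‖J‖ ≤ 1) {l : ℝ} (hl : 0 < l) (d v : V) :
    inner ℂ (cfc (ww l) (KK J) d) v - ((1 - l : ℝ) : ℂ) * inner ℂ (J (cfc (ww l) (KK J) d)) (J v) =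
      inner ℂ d v := by
  have h1 := congrArg (fun x => inner ℂ x v) (ww_inv J hJ hl d)
  simp only [inner_sub_left, inner_smul_left, KK_apply, ContinuousLinearMap.adjoint_inner_left,
    Complex.conj_ofReal] at h1
  exact h1

lemma Phi_lower (J : V →L[ℂ] F) (hJ : ‖J‖ ≤ 1) {l : ℝ} (hl : 0 < l) (d v : V) :
    2 * (inner ℂ d v).re - (‖v‖ ^ 2 - (1 - l) * ‖J v‖ ^ 2) ≤ Phi J d l := by
  set u := cfc (ww l) (KK J) d with hu
  have h1 := Phi_energy J hJ hl d v
  have h2 := Phi_energy J hJ hl d u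
  rw [← hu] at h1 h2
  have h3 := congrArg Complex.re h1
  have h4 := congrArg Complex.re h2
  rw [Complex.sub_re, Complex.re_ofReal_mul] at h3 h4
  have h5 : (inner ℂ d u).re = Phi J d l := rfl
  -- nonnegativity of the energy of u - v
  have h6 : 0 ≤ ‖u - v‖ ^ 2 - (1 - l) * ‖J (u - v)‖ ^ 2 := by
    have h7 : ‖J (u - v)‖ ≤ ‖u - v‖ := by
      refine (J.le_opNorm _).trans ?_
      have := norm_nonneg (u - v)
      nlinarith
    have h8 : ‖J (u - v)‖ ^ 2 ≤ ‖u - v‖ ^ 2 :=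
      pow_le_pow_left₀ (norm_nonneg _) h7 2
    by_cases hl1 : l ≤ 1
    · nlinarith [sq_nonneg ‖J (u - v)‖]
    · nlinarith [sq_nonneg ‖J (u - v)‖, sq_nonneg ‖u - v‖]
  rw [map_sub, @norm_sub_sq ℂ, @norm_sub_sq ℂ] at h6
  have h9 : (inner ℂ u u).re = ‖u‖ ^ 2 := by
    rw [inner_self_eq_norm_sq_to_K]; norm_cast
  have h10 : (inner ℂ (J u) (J u)).re = ‖J u‖ ^ 2 := by
    rw [inner_self_eq_norm_sq_to_K]; norm_cast
  rw [h9, h10, h5] at h4
  simp only [RCLike.re_eq_complex_re] at h6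
  nlinarith

lemma Phi_upper (J : V →L[ℂ] F) (hJ : ‖J‖ ≤ 1) {l : ℝ} (hl : 0 < l) (d : V) (M : ℝ)
    (h : ∀ v : V, 2 * ‖inner ℂ d v‖ ≤ (‖v‖ ^ 2 - (1 - l) * ‖J v‖ ^ 2) + M) :
    Phi J d l ≤ M := by
  set u := cfc (ww l) (KK J) d with hu
  have h2 := Phi_energy J hJ hl d u
  rw [← hu] at h2
  have h4 := congrArg Complex.re h2
  rw [Complex.sub_re, Complex.re_ofReal_mul] at h4
  have h5 : (inner ℂ d u).re = Phi J d l := rfl
  have h9 : (inner ℂ u u).re = ‖u‖ ^ 2 := by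
    rw [inner_self_eq_norm_sq_to_K]; norm_cast
  have h10 : (inner ℂ (J u) (J u)).re = ‖J u‖ ^ 2 := by
    rw [inner_self_eq_norm_sq_to_K]; norm_cast
  rw [h9, h10, h5] at h4
  have h6 := h u
  have h7 := Complex.re_le_norm (inner ℂ d u)
  rw [h5] at h7
  linarith

end Abstract

end Pool.Agent.HeatRatio
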