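import Pool.Agent.Lib.MP_ca5fa5_an.TestFn

set_option autoImplicit false

open MeasureTheory Filter Topology Set
open scoped ComplexConjugate ContDiff

namespace Pool.Agent.HeatRatio

/-- one odd smooth step -/
noncomputable def stp (X x : ℝ) : ℝ := Real.smoothTransition (x - X) - Real.smoothTransition (-x - X)

/-- The family of resistance functions. -/
noncomputable def SF (c X : ℕ → ℝ) (x : ℝ) : ℝ := Real.arctan x + ∑' n, c n * stp (X n) x

lemma stp_smooth (X : ℝ) : ContDiff ℝ ∞ (stp X) := by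
  unfold stp
  exact (Real.smoothTransition.contDiff.comp (contDiff_id.sub contDiff_const)).sub
    (Real.smoothTransition.contDiff.comp (contDiff_neg.sub contDiff_const))

lemma stp_odd (X x : ℝ) : stp X (-x) = -stp X x := by
  unfold stp
  rw [neg_neg]
  ring

lemma stp_mono (X : ℝ) : Monotone (stp X) := by
  intro x y hxy
  unfold stp
  have h1 := Real.smoothTransition.monotone (show x - X ≤ y - X by linarith)
  have h2 := Real.smoothTransition.monotone (show -y - X ≤ -x - X by linarith)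
  linarith

lemma stp_zero {X x : ℝ} (h : |x| ≤ X) : stp X x = 0 := by
  unfold stp
  rw [abs_le] at h
  rw [Real.smoothTransition.zero_of_nonpos (by linarith),
    Real.smoothTransition.zero_of_nonpos (by linarith), sub_zero]

lemma stp_one {X x : ℝ} (hX : 0 ≤ X) (h : X + 1 ≤ x) : stp X x = 1 := by
  unfold stp
  rw [Real.smoothTransition.one_of_one_le (by linarith),
    Real.smoothTransition.zero_of_nonpos (by linarith), sub_zero]

lemma stp_nonneg {X x : ℝ} (hX : 0 ≤ X) (h : 0 ≤ x) : 0 ≤ stp X x := by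
  unfold stp
  rw [Real.smoothTransition.zero_of_nonpos (show -x - X ≤ 0 by linarith), sub_zero]
  exact Real.smoothTransition.nonneg _

lemma stp_le_one (X x : ℝ) : stp X x ≤ 1 := by
  unfold stp
  have h1 := Real.smoothTransition.le_one (x - X)
  have h2 := Real.smoothTransition.nonneg (-x - X)
  linarith

/-- Local finiteness. -/
lemma SF_eq_finite {c X : ℕ → ℝ} (hX : ∀ n : ℕ, (n : ℝ) + 1 ≤ X n) {x : ℝ} {N : ℕ}
    (hN : |x| ≤ N) : SF c X x = Real.arctan x + ∑ n ∈ Finset.range N, c n * stp (X n) x := by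
  unfold SF
  congr 1
  refine tsum_eq_sum fun n hn => ?_
  rw [Finset.mem_range, not_lt] at hn
  have h1 : (N : ℝ) ≤ n := by exact_mod_cast hn
  rw [stp_zero (by linarith [hX n]), mul_zero]

lemma SF_eventually {c X : ℕ → ℝ} (hX : ∀ n : ℕ, (n : ℝ) + 1 ≤ X n) (x : ℝ) :
    ∃ N : ℕ, SF c X =ᶠ[𝓝 x]
      fun y => Real.arctan y + ∑ n ∈ Finset.range N, c n * stp (X n) y := by
  obtain ⟨N, hN⟩ := exists_nat_ge (|x| + 1)
  refine ⟨N, ?_⟩
  filter_upwards [Metric.ball_mem_nhds x one_pos] with y hy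
  refine SF_eq_finite hX ?_
  rw [Metric.mem_ball, Real.dist_eq] at hy
  have := abs_sub_abs_le_abs_sub y x
  linarith

lemma SF_smooth {c X : ℕ → ℝ} (hX : ∀ n : ℕ, (n : ℝ) + 1 ≤ X n) : ContDiff ℝ ∞ (SF c X) := by
  rw [contDiff_iff_contDiffAt]
  intro x
  obtain ⟨N, hN⟩ := SF_eventually (c := c) hX x
  refine ContDiffAt.congr_of_eventuallyEq ?_ hN
  refine ContDiffAt.add Real.contDiff_arctan.contDiffAt ?_
  refine ContDiff.contDiffAt ?_
  exact ContDiff.sum fun n _ => contDiff_const.mul (stp_smooth (X n))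

lemma SF_odd (c X : ℕ → ℝ) (x : ℝ) : SF c X (-x) = -SF c X x := by
  unfold SF
  rw [Real.arctan_neg, neg_add, ← tsum_neg]
  congr 1
  congr 1
  funext n
  rw [stp_odd]
  ring

lemma SF_deriv_pos {c X : ℕ → ℝ} (hc : ∀ n, 0 ≤ c n) (hX : ∀ n : ℕ, (n : ℝ) + 1 ≤ X n) (x : ℝ) :
    0 < deriv (SF c X) x := by
  obtain ⟨N, hN⟩ := SF_eventually (c := c) hX x
  rw [hN.deriv_eq]
  have h1 : Differentiable ℝ fun y => ∑ n ∈ Finset.range N, c n * stp (X n) y :=
    (ContDiff.sum fun n _ => contDiff_const.mul (stp_smooth (X n))).differentiable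
      (n := ∞) (by simp)
  have h2 : Monotone fun y => ∑ n ∈ Finset.range N, c n * stp (X n) y := by
    intro y z hyz
    exact Finset.sum_le_sum fun n _ => mul_le_mul_of_nonneg_left (stp_mono (X n) hyz) (hc n)
  have h3 : 0 ≤ deriv (fun y => ∑ n ∈ Finset.range N, c n * stp (X n) y) x := h2.deriv_nonneg
  rw [deriv_fun_add (Real.differentiable_arctan x) (h1 x), Real.deriv_arctan]
  positivity

lemma SF_resist {c X : ℕ → ℝ} (hc : ∀ n, 0 ≤ c n) (hX : ∀ n : ℕ, (n : ℝ) + 1 ≤ X n) :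
    Resist (SF c X) :=
  ⟨SF_smooth hX, SF_odd c X, SF_deriv_pos hc hX⟩

/-- Values of the family on the gaps. -/
lemma SF_gap {c X : ℕ → ℝ} (hX : ∀ n : ℕ, (n : ℝ) + 1 ≤ X n) (hX1 : ∀ n, X n + 1 ≤ X (n + 1))
    {n : ℕ} {x : ℝ} (h1 : X n + 1 ≤ x) (h2 : x ≤ X (n + 1)) :
    SF c X x = Real.arctan x + ∑ k ∈ Finset.range (n + 1), c k := by
  have hmono : Monotone X := monotone_nat_of_le_succ fun n => by linarith [hX1 n]
  have hx0 : 0 ≤ x := by
    have := hX n
    have : (0 : ℝ) ≤ n := Nat.cast_nonneg n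
    linarith
  unfold SF
  congr 1
  rw [tsum_eq_sum (s := Finset.range (n + 1))]
  · refine Finset.sum_congr rfl fun k hk => ?_
    rw [Finset.mem_range, Nat.lt_succ_iff] at hk
    have h3 := hmono hk
    have h4 : 0 ≤ X k := by
      have := hX k
      have : (0 : ℝ) ≤ k := Nat.cast_nonneg k
      linarith
    rw [stp_one h4 (by linarith), mul_one]
  · intro k hk
    rw [Finset.mem_range, not_lt] at hk
    have h3 := hmono hk
    rw [stp_zero (by rw [abs_of_nonneg hx0]; linarith), mul_zero]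

/-- Upper bound. -/
lemma SF_le {c X : ℕ → ℝ} (hc : ∀ n, 0 ≤ c n) (hX : ∀ n : ℕ, (n : ℝ) + 1 ≤ X n)
    (hs : Summable c) (x : ℝ) : SF c X x ≤ 2 + ∑' n, c n := by
  have h1 : Real.arctan x ≤ 2 := by
    have := Real.arctan_lt_pi_div_two x
    have := Real.pi_lt_d2
    linarith
  obtain ⟨N, hN⟩ := exists_nat_ge |x|
  rw [SF_eq_finite hX hN]
  refine add_le_add h1 ?_
  calc ∑ n ∈ Finset.range N, c n * stp (X n) x ≤ ∑ n ∈ Finset.range N, c n :=
        Finset.sum_le_sum fun n _ => mul_le_of_le_one_right (hc n) (stp_le_one _ _)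
    _ ≤ ∑' n, c n := hs.sum_le_tsum _ fun n _ => hc n

/-- Increment across a step. -/
lemma SF_step {c X : ℕ → ℝ} (hc : ∀ n, 0 ≤ c n) (hX : ∀ n : ℕ, (n : ℝ) + 1 ≤ X n) (n : ℕ) :
    c n ≤ SF c X (X n + 1) - SF c X (X n) := by
  have hXn : 0 ≤ X n := by
    have := hX n
    have : (0 : ℝ) ≤ n := Nat.cast_nonneg n
    linarith
  obtain ⟨N, hN⟩ := exists_nat_ge (max |X n + 1| n + 1)
  have hN1 : |X n + 1| ≤ N := by
    have := le_max_left |X n + 1| (n : ℝ)
    linarith
  have hN2 : n < N := by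
    have := le_max_right |X n + 1| (n : ℝ)
    have h : (n : ℝ) < N := by linarith
    exact_mod_cast h
  have hN3 : |X n| ≤ N := by
    rw [abs_of_nonneg hXn]
    rw [abs_of_nonneg (by linarith)] at hN1
    linarith
  rw [SF_eq_finite hX hN1, SF_eq_finite hX hN3]
  have h1 : Real.arctan (X n) ≤ Real.arctan (X n + 1) :=
    Real.arctan_strictMono.monotone (by linarith)
  have h2 : c n ≤ ∑ k ∈ Finset.range N, c k * (stp (X k) (X n + 1) - stp (X k) (X n)) := by
    have h3 : c n * (stp (X n) (X n + 1) - stp (X n) (X n)) ≤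
        ∑ k ∈ Finset.range N, c k * (stp (X k) (X n + 1) - stp (X k) (X n)) :=
      Finset.single_le_sum (f := fun k => c k * (stp (X k) (X n + 1) - stp (X k) (X n)))
        (fun k _ => mul_nonneg (hc k) (by linarith [stp_mono (X k) (show X n ≤ X n + 1 by linarith)]))
        (Finset.mem_range.2 hN2)
    rw [stp_one hXn le_rfl, stp_zero (by rw [abs_of_nonneg hXn]), sub_zero, mul_one] at h3
    exact h3
  have h4 : ∑ k ∈ Finset.range N, c k * (stp (X k) (X n + 1) - stp (X k) (X n)) =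
      ∑ k ∈ Finset.range N, c k * stp (X k) (X n + 1) -
        ∑ k ∈ Finset.range N, c k * stp (X k) (X n) := by
    rw [← Finset.sum_sub_distrib]
    refine Finset.sum_congr rfl fun k _ => ?_
    ring
  linarith

/-- arctan increments -/
lemma arctan_sub_le {a b : ℝ} (ha : 0 < a) : Real.arctan b - Real.arctan a ≤ 1 / a := by
  have h1 := Real.arctan_lt_pi_div_two b
  have h2 := Real.arctan_inv_of_pos ha
  have h3 : Real.arctan a⁻¹ ≤ a⁻¹ := by
    have h4 : 0 < Real.arctan a⁻¹ := Real.arctan_pos.2 (by positivity)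
    have h5 := Real.lt_tan h4 (Real.arctan_lt_pi_div_two _)
    rw [Real.tan_arctan] at h5
    exact h5.le
  rw [one_div]
  linarith

end Pool.Agent.HeatRatio
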