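import Pool.Agent.Lib.MP_ca5fa5_an.Crit

set_option autoImplicit false

open MeasureTheory Filter Topology Set
open scoped ComplexConjugate ContDiff

namespace Pool.Agent.HeatRatio

/-- lacunary positions -/
noncomputable def XX (n : ℕ) : ℝ := 2 ^ (4 ^ (n + 2))

/-- positions for the subcritical operator -/
noncomputable def YY (n : ℕ) : ℝ := 192 * 4 ^ n * XX n ^ 2

lemma XX_succ (n : ℕ) : XX (n + 1) = XX n ^ 4 := by
  unfold XX
  rw [← pow_mul]
  congr 1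

lemma pow_bound (n : ℕ) : 8 * (n + 2) ≤ 4 ^ (n + 2) := by
  induction n with
  | zero => norm_num
  | succ n ih =>
    rw [show n + 1 + 2 = (n + 2) + 1 by ring, pow_succ]
    omega

lemma XX_ge (n : ℕ) : (256 : ℝ) ^ (n + 2) ≤ XX n := by
  unfold XX
  have h : (256 : ℝ) ^ (n + 2) = 2 ^ (8 * (n + 2)) := by
    rw [pow_mul]; norm_num
  rw [h]
  exact pow_le_pow_right₀ (by norm_num) (pow_bound n)

lemma XX_ge' (n : ℕ) : (65536 : ℝ) * 256 ^ n ≤ XX n := by
  refine le_trans (le_of_eq ?_) (XX_ge n)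
  rw [pow_add]; ring

lemma XX_big (n : ℕ) : (65536 : ℝ) ≤ XX n := by
  have h1 := XX_ge' n
  have h2 : (1 : ℝ) ≤ 256 ^ n := one_le_pow₀ (by norm_num)
  linarith

lemma nat_le_pow (n : ℕ) : (n : ℝ) + 1 ≤ 2 ^ n := by
  have h : n + 1 ≤ 2 ^ n := Nat.lt_two_pow_self
  exact_mod_cast h

lemma XX_lin (n : ℕ) : (n : ℝ) + 1 ≤ XX n := by
  have h1 := XX_ge' n
  have h2 := nat_le_pow n
  have h3 : (2 : ℝ) ^ n ≤ 256 ^ n := pow_le_pow_left₀ (by norm_num) (by norm_num) n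
  have h4 : (0 : ℝ) ≤ 256 ^ n := by positivity
  linarith

lemma XX_step (n : ℕ) : XX n + 1 ≤ XX (n + 1) := by
  rw [XX_succ]
  have h := XX_big n
  nlinarith [pow_le_pow_right₀ (show (1 : ℝ) ≤ XX n by linarith) (show 2 ≤ 4 by norm_num)]

lemma YY_lin (n : ℕ) : (n : ℝ) + 1 ≤ YY n := by
  unfold YY
  have h1 := XX_lin n
  have h2 := XX_big n
  have h3 : (1 : ℝ) ≤ 4 ^ n := one_le_pow₀ (by norm_num)
  nlinarith [mul_le_mul h3 (le_refl (XX n ^ 2)) (by positivity) (by positivity)]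

lemma YY_step (n : ℕ) : YY n + 1 ≤ YY (n + 1) := by
  unfold YY
  have h1 := XX_step n
  have h2 := XX_big n
  have h3 : (1 : ℝ) ≤ 4 ^ n := one_le_pow₀ (by norm_num)
  have h4 : (4 : ℝ) ^ n ≤ 4 ^ (n + 1) := pow_le_pow_right₀ (by norm_num) (by omega)
  have h5 : XX n ^ 2 + 1 ≤ XX (n + 1) ^ 2 := by nlinarith
  have h6 : (4 : ℝ) ^ n * (XX n ^ 2 + 1) ≤ 4 ^ (n + 1) * XX (n + 1) ^ 2 :=
    mul_le_mul h4 h5 (by positivity) (by positivity)
  nlinarith

/-- resistance function of the critical operator -/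
noncomputable def S0 : ℝ → ℝ := SF (fun _ => 1) XX

/-- resistance function of the subcritical operator -/
noncomputable def S1 : ℝ → ℝ := SF (fun n => (1 / 2) ^ n) YY

lemma S0_resist : Resist S0 := SF_resist (fun _ => zero_le_one) XX_lin

lemma S1_resist : Resist S1 := SF_resist (fun n => by positivity) YY_lin

lemma S0_gap {n : ℕ} {x : ℝ} (h1 : XX n + 1 ≤ x) (h2 : x ≤ XX (n + 1)) :
    S0 x = Real.arctan x + (n + 1) := by
  unfold S0
  rw [SF_gap XX_lin XX_step h1 h2]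
  simp

lemma arctan_le_two (x : ℝ) : Real.arctan x ≤ 2 := by
  have := Real.arctan_lt_pi_div_two x
  have := Real.pi_lt_d2
  linarith

lemma S0_unbounded (M : ℝ) : ∃ x, M < S0 x := by
  obtain ⟨n, hn⟩ := exists_nat_ge M
  refine ⟨XX (n + 1), ?_⟩
  rw [S0_gap (XX_step n) le_rfl]
  have h1 : 0 < Real.arctan (XX (n + 1)) := Real.arctan_pos.2 (by have := XX_big (n+1); linarith)
  linarith

lemma S1_le (x : ℝ) : S1 x ≤ 4 := by
  have h := SF_le (c := fun n => (1 / 2 : ℝ) ^ n) (X := YY) (fun n => by positivity) YY_lin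
    summable_geometric_two x
  rw [tsum_geometric_two] at h
  unfold S1
  linarith

lemma S1_step (n : ℕ) : (1 / 2 : ℝ) ^ n ≤ S1 (YY n + 1) - S1 (YY n) :=
  SF_step (fun n => by positivity) YY_lin n

lemma H0_bottom : (HH S0 S0_resist).bottom 0 = 0 := by
  refine bottom_le_of_small S0_resist fun ε hε => ?_
  obtain ⟨b, hb⟩ := S0_unbounded (S0 2 + 1 / ε)
  have hb1 : 2 < b := by
    by_contra hlt
    have h1 := S0_resist.strictMono.monotone (not_lt.1 hlt)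
    have h2 : 0 < 1 / ε := by positivity
    linarith
  obtain ⟨h, hh, hone⟩ := exists_cut (a := 1) (b := b + 1) (ε := 1) zero_le_one one_pos
    (by linarith)
  have hN := NN_ge S0_resist hh (a := 2) (b := b) (by norm_num) hb1.le (by linarith)
    (fun s hs => hone s ⟨by linarith [hs.1], by linarith [hs.2]⟩)
  have hN2 : 1 / ε < NN S0 h (b + 1) := by linarith
  refine small_of_cut S0_resist hh one_pos (lt_trans (by positivity) hN2) ?_
  rw [one_mul]
  rw [div_lt_iff₀ hε] at hN2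
  linarith

lemma H0_critical : (HH S0 S0_resist).Critical :=
  critical_of_unbounded S0_resist S0_unbounded

lemma H1_bottom : (HH S1 S1_resist).bottom 0 = 0 := by
  refine bottom_le_of_small S1_resist fun ε hε => ?_
  obtain ⟨n, hn⟩ := exists_nat_gt (1 / ε)
  have hXb := XX_big n
  have h4n : (1 : ℝ) ≤ 4 ^ n := one_le_pow₀ (by norm_num)
  have hY : 2 < YY n := by
    unfold YY
    nlinarith [mul_le_mul h4n (le_refl (XX n ^ 2)) (by positivity) (by positivity)]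
  obtain ⟨h, hh, hone⟩ := exists_cut (a := YY n - 1) (b := YY n + 2) (ε := 1) (by linarith)
    one_pos (by linarith)
  have hN := NN_ge S1_resist hh (a := YY n) (b := YY n + 1) (by linarith) (by linarith)
    (by linarith) (fun s hs => hone s ⟨by linarith [hs.1], by linarith [hs.2]⟩)
  have hN2 : (1 / 2 : ℝ) ^ n ≤ NN S1 h (YY n + 2) := (S1_step n).trans hN
  have hpos : (0 : ℝ) < (1 / 2) ^ n := by positivity
  refine small_of_cut S1_resist hh (by linarith) (lt_of_lt_of_le hpos hN2) ?_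
  -- 1 < ε (Y - 1) N
  have h1 : 1 < ε * n := by
    rw [div_lt_iff₀ hε] at hn
    linarith
  have h2 : (n : ℝ) ≤ (YY n - 1) * NN S1 h (YY n + 2) := by
    have h3 : (YY n - 1) * (1 / 2) ^ n ≤ (YY n - 1) * NN S1 h (YY n + 2) :=
      mul_le_mul_of_nonneg_left hN2 (by linarith)
    refine le_trans ?_ h3
    have h5 := nat_le_pow n
    have h6 : (2 : ℝ) ^ n * (1 / 2) ^ n = 1 := by rw [← mul_pow]; norm_num
    have h7 : (2 : ℝ) ^ n * 2 ^ n ≤ YY n - 1 := by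
      unfold YY
      have h8 : (2 : ℝ) ^ n * 2 ^ n = 4 ^ n := by rw [← mul_pow]; norm_num
      rw [h8]
      have h9 : (1 : ℝ) ≤ XX n ^ 2 := one_le_pow₀ (by linarith)
      have h10 : (192 * 4 ^ n : ℝ) * 1 ≤ 192 * 4 ^ n * XX n ^ 2 :=
        mul_le_mul_of_nonneg_left h9 (by positivity)
      linarith
    calc (n : ℝ) ≤ 2 ^ n := by linarith
      _ = 2 ^ n * 2 ^ n * (1 / 2) ^ n := by rw [mul_assoc, h6, mul_one]
      _ ≤ (YY n - 1) * (1 / 2) ^ n := mul_le_mul_of_nonneg_right h7 hpos.le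
  have h3 := mul_le_mul_of_nonneg_left h2 hε.le
  linarith

lemma H1_subcritical : (HH S1 S1_resist).Subcritical :=
  subcritical_of_bounded S1_resist S1_le

/-- Upper bound for the critical kernel along `T = X_n²`. -/
lemma k0_upper {k Φ : ℝ → ℝ}
    (hk : ∀ T, 0 < T → k T ≤ 3 / T * (Φ (1 / T) - Φ (2 / T)))
    (hU : ∀ l x1 x2, 0 < l → 0 ≤ x1 → x1 < x2 → Φ l ≤ S0 x2 / 2 + 1 / (2 * l * (x2 - x1)))
    (hL : ∀ l x1, 0 < l → 0 < x1 → S0 x1 / 2 - l * x1 * (S0 x1) ^ 2 / 2 ≤ Φ l) (n : ℕ) :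
    k (XX n ^ 2) ≤ 9 * ((n : ℝ) + 3) ^ 2 / XX n ^ 3 := by
  set X := XX n with hX
  have hXb : (65536 : ℝ) ≤ X := XX_big n
  have hXpos : 0 < X := by linarith
  have hstep : X + 1 ≤ X ^ 4 := by rw [hX, ← XX_succ]; exact XX_step n
  have hX4 : X ^ 4 / 2 ≤ X ^ 4 - (X + 1) := by
    nlinarith [pow_le_pow_right₀ (show (1 : ℝ) ≤ X by linarith) (show 2 ≤ 4 by norm_num)]
  have hX1pos : 0 < X + 1 := by linarith
  have hX4pos : 0 < X ^ 4 - (X + 1) := by
    have : 0 < X ^ 4 / 2 := by positivity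
    linarith
  have hg1 : S0 (X + 1) = Real.arctan (X + 1) + (n + 1) := S0_gap le_rfl (XX_step n)
  have hg2 : S0 (X ^ 4) = Real.arctan (X ^ 4) + (n + 1) := by
    rw [hX, ← XX_succ]
    exact S0_gap (XX_step n) le_rfl
  have h1 := hk (X ^ 2) (by positivity)
  have h2 := hU (1 / X ^ 2) (X + 1) (X ^ 4) (by positivity) hX1pos.le (by linarith)
  have h3 := hL (2 / X ^ 2) (X + 1) (by positivity) hX1pos
  have hn0 : (0 : ℝ) ≤ n := Nat.cast_nonneg n
  -- pieces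
  have hA : S0 (X ^ 4) / 2 - S0 (X + 1) / 2 ≤ 1 / (2 * X) := by
    rw [hg1, hg2]
    have h4 := arctan_sub_le (b := X ^ 4) hX1pos
    have h5 : 1 / (X + 1) ≤ 1 / X := one_div_le_one_div_of_le hXpos (by linarith)
    have h6 : 1 / (2 * X) = 1 / X / 2 := by rw [one_div, one_div, mul_inv]; ring
    rw [h6]
    linarith
  have hB : 1 / (2 * (1 / X ^ 2) * (X ^ 4 - (X + 1))) ≤ 1 / X := by
    apply one_div_le_one_div_of_le hXpos
    have h4 : 2 * (1 / X ^ 2) * (X ^ 4 / 2) ≤ 2 * (1 / X ^ 2) * (X ^ 4 - (X + 1)) :=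
      mul_le_mul_of_nonneg_left hX4 (by positivity)
    have h5 : 2 * (1 / X ^ 2) * (X ^ 4 / 2) = X ^ 2 := by field_simp
    nlinarith
  have hSle : S0 (X + 1) ≤ n + 3 := by
    rw [hg1]
    have := arctan_le_two (X + 1)
    linarith
  have hS0 : 0 ≤ S0 (X + 1) := by
    rw [← S0_resist.zero]
    exact S0_resist.strictMono.monotone hX1pos.le
  have hC : 2 / X ^ 2 * (X + 1) * (S0 (X + 1)) ^ 2 / 2 ≤ 2 * ((n : ℝ) + 3) ^ 2 / X := by
    have h4 : (S0 (X + 1)) ^ 2 ≤ ((n : ℝ) + 3) ^ 2 := pow_le_pow_left₀ hS0 hSle 2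
    have h5 : 2 / X ^ 2 * (X + 1) / 2 ≤ 2 / X := by
      rw [div_mul_eq_mul_div, div_div, div_le_div_iff₀ (by positivity) hXpos]
      nlinarith
    calc 2 / X ^ 2 * (X + 1) * (S0 (X + 1)) ^ 2 / 2
        = (2 / X ^ 2 * (X + 1) / 2) * (S0 (X + 1)) ^ 2 := by ring
      _ ≤ (2 / X) * ((n : ℝ) + 3) ^ 2 := mul_le_mul h5 h4 (by positivity) (by positivity)
      _ = _ := by ring
  have hsum : Φ (1 / X ^ 2) - Φ (2 / X ^ 2) ≤ 3 * ((n : ℝ) + 3) ^ 2 / X := by
    have h4 : 3 * ((n : ℝ) + 3) ^ 2 / X = 2 * ((n : ℝ) + 3) ^ 2 / X + ((n : ℝ) + 3) ^ 2 / X := by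
      ring
    have h5 : 1 / (2 * X) + 1 / X ≤ ((n : ℝ) + 3) ^ 2 / X := by
      have h6 : 1 / (2 * X) + 1 / X = (3 / 2) / X := by field_simp; norm_num
      rw [h6]
      apply div_le_div_of_nonneg_right _ hXpos.le
      nlinarith
    linarith
  calc k (X ^ 2) ≤ 3 / X ^ 2 * (Φ (1 / X ^ 2) - Φ (2 / X ^ 2)) := h1
    _ ≤ 3 / X ^ 2 * (3 * ((n : ℝ) + 3) ^ 2 / X) := mul_le_mul_of_nonneg_left hsum (by positivity)
    _ = _ := by
      field_simp
      ring

/-- Lower bound for the subcritical kernel along `T = X_n²`. -/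
lemma k1_lower {k Φ : ℝ → ℝ}
    (hk : ∀ T l L, 0 < T → 0 < l → l ≤ L →
      l / Real.exp 1 * (Φ l - Φ L - 2 * L * T * Φ (1 / T)) ≤ k T)
    (hU : ∀ l x1 x2, 0 < l → 0 ≤ x1 → x1 < x2 → Φ l ≤ S1 x2 / 2 + 1 / (2 * l * (x2 - x1)))
    (hL : ∀ l x1, 0 < l → 0 < x1 → S1 x1 / 2 - l * x1 * (S1 x1) ^ 2 / 2 ≤ Φ l) (n : ℕ) :
    1 / (196608 * Real.exp 1 * 16 ^ n * XX n ^ 2) ≤ k (XX n ^ 2) := by
  set X := XX n with hX
  have hXb : (65536 : ℝ) ≤ X := XX_big n
  have hXpos : 0 < X := by linarith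
  have h4n : (1 : ℝ) ≤ 4 ^ n := one_le_pow₀ (by norm_num)
  set c : ℝ := (1 / 2) ^ n with hc
  have hcpos : 0 < c := by positivity
  have hc1 : c ≤ 1 := pow_le_one₀ (by norm_num) (by norm_num)
  have hc2 : c ^ 2 * 4 ^ n = 1 := by
    rw [hc, ← pow_mul, mul_comm n 2, pow_mul, ← mul_pow]
    norm_num
  set y := YY n with hy
  have hyX : y = 192 * 4 ^ n * X ^ 2 := rfl
  have hypos : 0 < y := by rw [hyX]; positivity
  have hy1 : 1 ≤ y := by
    rw [hyX]
    nlinarith [mul_le_mul h4n (le_refl (X ^ 2)) (by positivity) (by positivity)]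
  have hcy : c ^ 2 * y = 192 * X ^ 2 := by
    rw [hyX]
    calc c ^ 2 * (192 * 4 ^ n * X ^ 2) = (c ^ 2 * 4 ^ n) * (192 * X ^ 2) := by ring
      _ = _ := by rw [hc2, one_mul]
  have hlL : c / (64 * (y + 1)) ≤ 4 / (c * y) := by
    rw [div_le_div_iff₀ (by positivity) (by positivity)]
    nlinarith [mul_pos hcpos hypos, mul_le_mul_of_nonneg_right hc1 (mul_pos hcpos hypos).le]
  have h1 := hk (X ^ 2) (c / (64 * (y + 1))) (4 / (c * y)) (by positivity) (by positivity) hlL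
  have h2 := hL (c / (64 * (y + 1))) (y + 1) (by positivity) (by linarith)
  have h3 := hU (4 / (c * y)) 0 y (by positivity) le_rfl hypos
  have h4 := hU (1 / X ^ 2) 0 (X ^ 2) (by positivity) le_rfl (by positivity)
  rw [sub_zero] at h3 h4
  have hSstep := S1_step n
  rw [← hc, ← hy] at hSstep
  have hSle := S1_le (y + 1)
  have hS0 : 0 ≤ S1 (y + 1) := by
    rw [← S1_resist.zero]
    exact S1_resist.strictMono.monotone (by linarith)
  have hS2 : (S1 (y + 1)) ^ 2 ≤ 16 := by nlinarith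
  have hA : c / (64 * (y + 1)) * (y + 1) * (S1 (y + 1)) ^ 2 / 2 ≤ c / 8 := by
    have h5 : c / (64 * (y + 1)) * (y + 1) = c / 64 := by
      field_simp
    rw [h5]
    nlinarith
  have hB : 1 / (2 * (4 / (c * y)) * y) = c / 8 := by
    field_simp
    norm_num
  have hC : Φ (1 / X ^ 2) ≤ 3 := by
    have h5 : 1 / (2 * (1 / X ^ 2) * X ^ 2) = 1 / 2 := by
      field_simp
    have h6 := S1_le (X ^ 2)
    linarith
  have hD : 2 * (4 / (c * y)) * X ^ 2 * Φ (1 / X ^ 2) ≤ c / 8 := by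
    have h5 : 2 * (4 / (c * y)) * X ^ 2 * Φ (1 / X ^ 2) ≤ 2 * (4 / (c * y)) * X ^ 2 * 3 :=
      mul_le_mul_of_nonneg_left hC (by positivity)
    have h6 : 2 * (4 / (c * y)) * X ^ 2 * 3 = c / 8 := by
      have h7 : 2 * (4 / (c * y)) * X ^ 2 * 3 = 24 * X ^ 2 / (c * y) := by ring
      rw [h7, div_eq_div_iff (by positivity) (by norm_num)]
      linarith
    linarith
  rw [hB] at h3
  have hE : c / 8 ≤ Φ (c / (64 * (y + 1))) - Φ (4 / (c * y)) -
      2 * (4 / (c * y)) * X ^ 2 * Φ (1 / X ^ 2) := by linarith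
  have hF : c / (64 * (y + 1)) / Real.exp 1 * (c / 8) ≤ k (X ^ 2) :=
    le_trans (mul_le_mul_of_nonneg_left hE (by positivity)) h1
  refine le_trans ?_ hF
  have he : 0 < Real.exp 1 := Real.exp_pos 1
  have h16 : (16 : ℝ) ^ n * c ^ 4 = 1 := by
    have : (16 : ℝ) ^ n = 4 ^ n * 4 ^ n := by rw [← mul_pow]; norm_num
    rw [this]
    calc (4 : ℝ) ^ n * 4 ^ n * c ^ 4 = (c ^ 2 * 4 ^ n) * (c ^ 2 * 4 ^ n) := by ring
      _ = 1 := by rw [hc2, one_mul]
  have hG : c / (64 * (y + 1)) / Real.exp 1 * (c / 8) = c ^ 2 / (512 * Real.exp 1 * (y + 1)) := by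
    field_simp
    norm_num
  rw [hG, div_le_div_iff₀ (by positivity) (by positivity)]
  -- 512 e (y+1) ≤ c² 196608 e 16^n X²
  have h7 : c ^ 2 * (196608 * Real.exp 1 * 16 ^ n * X ^ 2) = 1024 * Real.exp 1 * y := by
    have h8 : c ^ 2 * (c ^ 2 * (196608 * Real.exp 1 * 16 ^ n * X ^ 2)) =
        c ^ 2 * (1024 * Real.exp 1 * y) := by
      calc c ^ 2 * (c ^ 2 * (196608 * Real.exp 1 * 16 ^ n * X ^ 2))
          = (16 ^ n * c ^ 4) * (196608 * Real.exp 1 * X ^ 2) := by ring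
        _ = 196608 * Real.exp 1 * X ^ 2 := by rw [h16, one_mul]
        _ = 1024 * Real.exp 1 * (192 * X ^ 2) := by ring
        _ = 1024 * Real.exp 1 * (c ^ 2 * y) := by rw [hcy]
        _ = _ := by ring
    exact mul_left_cancel₀ (by positivity) h8
  rw [h7, one_mul]
  nlinarith

end Pool.Agent.HeatRatio
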