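import Pool.Agent.Lib.MP_ca5fa5_an.Energy

set_option autoImplicit false

open MeasureTheory Filter Topology
open scoped ComplexConjugate ContDiff

namespace Pool.Agent.HeatRatio

variable {d : ℕ} {Ω : Set (E d)}

lemma isTest_iff {u : E d → ℂ} : IsTest Ω u ↔
    ContDiff ℝ ∞ u ∧ ∃ K, IsCompact K ∧ K ⊆ Ω ∧ ∀ x ∉ K, u x = 0 := by
  constructor
  · rintro ⟨h1, h2, h3⟩
    exact ⟨h1, tsupport u, h2, h3, fun x hx => image_eq_zero_of_notMem_tsupport hx⟩
  · rintro ⟨h1, K, hK, hKΩ, h⟩
    refine ⟨h1, HasCompactSupport.intro hK h, ?_⟩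
    refine (closure_minimal ?_ hK.isClosed).trans hKΩ
    intro x hx
    by_contra hxK
    exact hx (h x hxK)

lemma IsTest.add {u v : E d → ℂ} (hu : IsTest Ω u) (hv : IsTest Ω v) : IsTest Ω (u + v) := by
  rw [isTest_iff] at *
  obtain ⟨h1, K, hK, hKΩ, h⟩ := hu
  obtain ⟨h1', K', hK', hKΩ', h'⟩ := hv
  refine ⟨h1.add h1', K ∪ K', hK.union hK', Set.union_subset hKΩ hKΩ', fun x hx => ?_⟩
  rw [Set.mem_union, not_or] at hx
  rw [Pi.add_apply, h x hx.1, h' x hx.2, add_zero]

lemma IsTest.smul {u : E d → ℂ} (c : ℂ) (hu : IsTest Ω u) : IsTest Ω (c • u) := by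
  rw [isTest_iff] at *
  obtain ⟨h1, K, hK, hKΩ, h⟩ := hu
  refine ⟨contDiff_const.smul h1, K, hK, hKΩ, fun x hx => ?_⟩
  rw [Pi.smul_apply, h x hx, smul_zero]

lemma IsTest.zero : IsTest Ω (0 : E d → ℂ) := by
  rw [isTest_iff]
  exact ⟨contDiff_const, ∅, isCompact_empty, Set.empty_subset _, fun x _ => rfl⟩

lemma IsTest.conj {u : E d → ℂ} (hu : IsTest Ω u) : IsTest Ω (fun x => conj (u x)) := by
  rw [isTest_iff] at *
  obtain ⟨h1, K, hK, hKΩ, h⟩ := hu
  refine ⟨Complex.conjCLE.contDiff.comp h1, K, hK, hKΩ, fun x hx => ?_⟩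
  simp [h x hx]

/-- The test functions as a submodule. -/
def testSub (Ω : Set (E d)) : Submodule ℂ (E d → ℂ) where
  carrier := {u | IsTest Ω u}
  add_mem' := fun h1 h2 => h1.add h2
  zero_mem' := IsTest.zero
  smul_mem' := fun c _ h => h.smul c

lemma IsTest.differentiable {u : E d → ℂ} (hu : IsTest Ω u) : Differentiable ℝ u :=
  hu.1.differentiable (by simp)

lemma IsTest.pd_continuous {u : E d → ℂ} (hu : IsTest Ω u) (i : Fin d) :
    Continuous (pd i u) := by
  have h : Continuous (fun x => fderiv ℝ u x) := hu.1.continuous_fderiv (by simp)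
  unfold pd
  exact h.clm_apply continuous_const

lemma IsTest.pd_zero {u : E d → ℂ} (i : Fin d) {x : E d} (hx : x ∉ tsupport u) :
    pd i u x = 0 := by
  unfold pd
  have h : x ∉ tsupport (fderiv ℝ u) := fun h => hx (tsupport_fderiv_subset ℝ h)
  rw [image_eq_zero_of_notMem_tsupport h]
  rfl

lemma pd_add {u v : E d → ℂ} (hu : IsTest Ω u) (hv : IsTest Ω v) (i : Fin d) (x : E d) :
    pd i (u + v) x = pd i u x + pd i v x := by
  unfold pd
  rw [fderiv_add (hu.differentiable x) (hv.differentiable x)]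
  rfl

lemma pd_smul {u : E d → ℂ} (hu : IsTest Ω u) (c : ℂ) (i : Fin d) (x : E d) :
    pd i (c • u) x = c * pd i u x := by
  unfold pd
  rw [fderiv_const_smul (hu.differentiable x)]
  rfl

lemma pd_conj {u : E d → ℂ} (hu : IsTest Ω u) (i : Fin d) (x : E d) :
    pd i (fun x => conj (u x)) x = conj (pd i u x) := by
  unfold pd
  have h := (Complex.conjCLE.toContinuousLinearMap.hasFDerivAt (x := u x)).comp x
    (hu.differentiable x).hasFDerivAt
  have h2 : fderiv ℝ (fun x => (starRingEnd ℂ) (u x)) x =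
      (Complex.conjCLE.toContinuousLinearMap).comp (fderiv ℝ u x) := h.fderiv
  rw [h2]
  rfl

lemma integrable_mul_of_test {g : E d → ℝ} (hg : Measurable g)
    (hgb : ∀ K ⊆ Ω, IsCompact K → ∃ C : ℝ, ∀ x ∈ K, |g x| ≤ C)
    {f : E d → ℂ} (hf : Continuous f) {K : Set (E d)} (hK : IsCompact K) (hKΩ : K ⊆ Ω)
    (h0 : ∀ x ∉ K, f x = 0) :
    Integrable (fun x => (g x : ℂ) * f x) (volume.restrict Ω) := by
  obtain ⟨C, hC⟩ := hgb K hKΩ hK
  obtain ⟨C', hC'⟩ := hK.exists_bound_of_continuousOn hf.continuousOn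
  have h1 : IntegrableOn (fun x => (g x : ℂ) * f x) K volume := by
    refine Measure.integrableOn_of_bounded (M := |C| * |C'|) hK.measure_lt_top.ne ?_ ?_
    · exact ((Complex.measurable_ofReal.comp hg).mul hf.measurable).aestronglyMeasurable
    · refine (ae_restrict_iff' hK.measurableSet).2 (Eventually.of_forall fun x hx => ?_)
      rw [norm_mul, Complex.norm_real, Real.norm_eq_abs]
      exact mul_le_mul ((hC x hx).trans (le_abs_self C)) ((hC' x hx).trans (le_abs_self C'))
        (norm_nonneg _) (abs_nonneg _)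
  have h2 : Integrable (fun x => (g x : ℂ) * f x) volume := by
    rw [← integrableOn_iff_integrable_of_support_subset (s := K)]
    · exact h1
    · intro x hx
      by_contra hxK
      apply hx
      simp [h0 x hxK]
  exact h2.mono_measure Measure.restrict_le_self

/-- The integrand of the form. -/
noncomputable def Coeff.integrand (H : Coeff d Ω) (u v : E d → ℂ) (x : E d) : ℂ :=
  (∑ i, ∑ j, (H.A x i j : ℂ) * (conj (pd i u x) * pd j v x)) + (H.V x : ℂ) * (conj (u x) * v x)

lemma Coeff.form_eq (H : Coeff d Ω) (u v : E d → ℂ) :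
    H.form u v = ∫ x in Ω, H.integrand u v x := rfl

lemma Coeff.integrable_integrand (H : Coeff d Ω) {u v : E d → ℂ} (hu : IsTest Ω u)
    (hv : IsTest Ω v) : Integrable (H.integrand u v) (volume.restrict Ω) := by
  unfold Coeff.integrand
  refine Integrable.add ?_ ?_
  · refine integrable_finsetSum _ fun i _ => integrable_finsetSum _ fun j _ => ?_
    refine integrable_mul_of_test (H.measA i j) (fun K hK hKc => ?_)
      ((Complex.continuous_conj.comp (hu.pd_continuous i)).mul (hv.pd_continuous j))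
      hv.2.1 hv.2.2 (fun x hx => ?_)
    · obtain ⟨C, hC⟩ := H.bddA K hK hKc
      exact ⟨C, fun x hx => hC x hx i j⟩
    · show conj (pd i u x) * pd j v x = 0
      rw [IsTest.pd_zero j hx, mul_zero]
  · refine integrable_mul_of_test H.measV H.bddV
      ((Complex.continuous_conj.comp hu.1.continuous).mul hv.1.continuous)
      hv.2.1 hv.2.2 (fun x hx => ?_)
    show conj (u x) * v x = 0
    rw [image_eq_zero_of_notMem_tsupport hx, mul_zero]

lemma integrable_conj_mul {u v : E d → ℂ} (hu : IsTest Ω u) (hv : IsTest Ω v) :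
    Integrable (fun x => conj (u x) * v x) (volume.restrict Ω) := by
  have h := integrable_mul_of_test (Ω := Ω) (g := fun _ => (1 : ℝ)) measurable_const
    (fun K _ _ => ⟨1, fun x _ => by simp⟩)
    ((Complex.continuous_conj.comp hu.1.continuous).mul hv.1.continuous)
    hv.2.1 hv.2.2 (fun x hx => by
      show conj (u x) * v x = 0
      rw [image_eq_zero_of_notMem_tsupport hx, mul_zero])
  simpa using h

lemma IsTest.memLp {u : E d → ℂ} (hu : IsTest Ω u) : MemLp u 2 (volume.restrict Ω) :=
  (hu.1.continuous.memLp_of_hasCompactSupport hu.2.1).mono_measure Measure.restrict_le_self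

/-- `form(u,v) + ⟨u,v⟩`. -/
noncomputable def Coeff.inn (H : Coeff d Ω) (u v : E d → ℂ) : ℂ :=
  H.form u v + ∫ x in Ω, conj (u x) * v x

lemma Coeff.form_add_right (H : Coeff d Ω) {u v w : E d → ℂ} (hu : IsTest Ω u)
    (hv : IsTest Ω v) (hw : IsTest Ω w) : H.form u (v + w) = H.form u v + H.form u w := by
  rw [H.form_eq, H.form_eq, H.form_eq, ← integral_add (H.integrable_integrand hu hv)
    (H.integrable_integrand hu hw)]
  congr 1
  funext x
  unfold Coeff.integrand
  simp only [pd_add hv hw, Pi.add_apply, mul_add, Finset.sum_add_distrib]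
  ring

lemma Coeff.form_smul_right (H : Coeff d Ω) {u v : E d → ℂ}
    (hv : IsTest Ω v) (c : ℂ) : H.form u (c • v) = c * H.form u v := by
  rw [H.form_eq, H.form_eq, ← integral_const_mul]
  congr 1
  funext x
  unfold Coeff.integrand
  simp only [pd_smul hv, Pi.smul_apply, smul_eq_mul, mul_add, Finset.mul_sum]
  congr 1
  · refine Finset.sum_congr rfl fun i _ => Finset.sum_congr rfl fun j _ => ?_
    ring
  · ring

lemma Coeff.form_conj_symm (H : Coeff d Ω) (hΩ : MeasurableSet Ω) (u v : E d → ℂ) :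
    conj (H.form v u) = H.form u v := by
  rw [H.form_eq, H.form_eq, ← integral_conj]
  refine setIntegral_congr_fun hΩ fun x hx => ?_
  show conj (H.integrand v u x) = H.integrand u v x
  unfold Coeff.integrand
  simp only [map_add, map_sum, map_mul, Complex.conj_conj, Complex.conj_ofReal]
  congr 1
  · rw [Finset.sum_comm]
    refine Finset.sum_congr rfl fun i _ => Finset.sum_congr rfl fun j _ => ?_
    have := (H.symm x hx).apply i j
    rw [this]
    ring
  · ring

lemma Coeff.form_add_left (H : Coeff d Ω) {u v w : E d → ℂ} (hu : IsTest Ω u)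
    (hv : IsTest Ω v) (hw : IsTest Ω w) : H.form (u + v) w = H.form u w + H.form v w := by
  rw [H.form_eq, H.form_eq, H.form_eq, ← integral_add (H.integrable_integrand hu hw)
    (H.integrable_integrand hv hw)]
  congr 1
  funext x
  unfold Coeff.integrand
  simp only [pd_add hu hv, Pi.add_apply, map_add, mul_add, add_mul, Finset.sum_add_distrib]
  ring

lemma Coeff.form_smul_left (H : Coeff d Ω) {u v : E d → ℂ}
    (hu : IsTest Ω u) (c : ℂ) : H.form (c • u) v = conj c * H.form u v := by
  rw [H.form_eq, H.form_eq, ← integral_const_mul]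
  congr 1
  funext x
  unfold Coeff.integrand
  simp only [pd_smul hu, Pi.smul_apply, smul_eq_mul, mul_add, Finset.mul_sum, map_mul]
  congr 1
  · refine Finset.sum_congr rfl fun i _ => Finset.sum_congr rfl fun j _ => ?_
    ring
  · ring

end Pool.Agent.HeatRatio
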