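import Pool.Agent.Lib.MP_ca5fa5_an.Line

set_option autoImplicit false

open MeasureTheory Filter Topology Set
open scoped ComplexConjugate ContDiff

namespace Pool.Agent.HeatRatio

section
variable {V : Type} [NormedAddCommGroup V] [InnerProductSpace ℂ V] [CompleteSpace V]

/-- Riesz representation of functionals bounded on a dense range. -/
lemma exists_riesz {M : Type} [AddCommGroup M] [Module ℂ M] {j : M →ₗ[ℂ] V} (hj : DenseRange j)
    (f : M →ₗ[ℂ] ℂ) (hf : ∃ C, ∀ u, ‖f u‖ ≤ C * ‖j u‖) :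
    ∃ D : V, ∀ u, inner ℂ D (j u) = f u := by
  refine ⟨(InnerProductSpace.toDual ℂ V).symm (f.extendOfNorm j), fun u => ?_⟩
  rw [InnerProductSpace.toDual_symm_apply]
  exact LinearMap.extendOfNorm_eq hj hf u

/-- Extending inequalities from a dense range. -/
lemma dense_ineq {M : Type} [AddCommGroup M] [Module ℂ M] {j : M →ₗ[ℂ] V} (hj : DenseRange j)
    {f g : V → ℝ} (hf : Continuous f) (hg : Continuous g) (h : ∀ u, f (j u) ≤ g (j u)) (v : V) :
    f v ≤ g v := by
  have hcl : IsClosed {v | f v ≤ g v} := isClosed_le hf hg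
  have := hj.closure_range
  have h2 : closure (range j) ⊆ {v | f v ≤ g v} := by
    refine closure_minimal ?_ hcl
    rintro _ ⟨u, rfl⟩
    exact h u
  rw [this] at h2
  exact h2 (mem_univ v)

end

/-- Everything needed about the one dimensional operator. -/
theorem exists_green (S : ℝ → ℝ) (hS : Resist S) :
    ∃ (k : ℝ → E 1 → E 1 → ℝ) (Φ : ℝ → ℝ), (HH S hS).IsHeatKernel k ∧
      (∀ T, 0 < T → k T 0 0 ≤ 3 / T * (Φ (1 / T) - Φ (2 / T))) ∧
      (∀ T l L, 0 < T → 0 < l → l ≤ L →
        l / Real.exp 1 * (Φ l - Φ L - 2 * L * T * Φ (1 / T)) ≤ k T 0 0) ∧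
      (∀ l x1 x2, 0 < l → 0 ≤ x1 → x1 < x2 → Φ l ≤ S x2 / 2 + 1 / (2 * l * (x2 - x1))) ∧
      (∀ l x1, 0 < l → 0 < x1 → S x1 / 2 - l * x1 * (S x1) ^ 2 / 2 ≤ Φ l) := by
  obtain ⟨V, i1, i2, i3, j, J, hj, hin, hJ1, hJ⟩ :=
    exists_formHilbert (HH S hS) MeasurableSet.univ (HH_nonneg hS)
  have hnorm : ∀ u : testSub (univ : Set (E 1)), ‖j u‖ ^ 2 =
      qq S ((u : E 1 → ℂ) ∘ io) + nn ((u : E 1 → ℂ) ∘ io) := by
    intro u
    rw [norm_j_sq hin u, HH_form_self hS u.2, nn_eq]
  have hJnorm : ∀ u : testSub (univ : Set (E 1)), ‖J (j u)‖ ^ 2 = nn ((u : E 1 → ℂ) ∘ io) := by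
    intro u
    rw [hJ, norm_toLp_sq u.2, nn_eq]
  -- reproducing vectors
  have hD' : ∀ x : E 1, ∃ D : V, ∀ u : testSub (univ : Set (E 1)),
      inner ℂ D (j u) = (u : E 1 → ℂ) x := by
    intro x
    let f : testSub (univ : Set (E 1)) →ₗ[ℂ] ℂ :=
      { toFun := fun u => (u : E 1 → ℂ) x
        map_add' := fun u v => rfl
        map_smul' := fun c u => rfl }
    refine exists_riesz hj f ⟨Real.sqrt ((2 + (S (x 0 + 1) - S (x 0))) * 2), fun u => ?_⟩
    have h1 := point_bound hS u.2.tst (x 0)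
    have h2 : ((u : E 1 → ℂ) ∘ io) (x 0) = (u : E 1 → ℂ) x := by
      rw [Function.comp_apply, io_coord]
    rw [h2, ← mul_assoc, ← hnorm u] at h1
    have h3 := Real.sqrt_le_sqrt h1
    have h4 : 0 ≤ (2 + (S (x 0 + 1) - S (x 0))) * 2 := by
      have := hS.strictMono.monotone (show x 0 ≤ x 0 + 1 by linarith)
      linarith
    rw [Real.sqrt_sq (norm_nonneg _), Real.sqrt_mul h4, Real.sqrt_sq (norm_nonneg _)] at h3
    exact h3
  choose D hD using hD'
  have hDc : Continuous D := by
    rw [continuous_iff_continuousAt]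
    intro x
    have hmod : ∀ y : E 1, ‖D y - D x‖ ^ 2 ≤ |S (y 0) - S (x 0)| := by
      intro y
      have h1 : ∀ v : V, ‖inner ℂ (D y - D x) v‖ ≤ Real.sqrt |S (y 0) - S (x 0)| * ‖v‖ := by
        refine dense_ineq hj (by fun_prop) (by fun_prop) fun u => ?_
        rw [inner_sub_left, hD, hD]
        have h2 : ‖(u : E 1 → ℂ) y - (u : E 1 → ℂ) x‖ ^ 2 ≤ |S (y 0) - S (x 0)| * ‖j u‖ ^ 2 := by
          have hy : (u : E 1 → ℂ) y = ((u : E 1 → ℂ) ∘ io) (y 0) := by
            rw [Function.comp_apply, io_coord]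
          have hx : (u : E 1 → ℂ) x = ((u : E 1 → ℂ) ∘ io) (x 0) := by
            rw [Function.comp_apply, io_coord]
          rw [hy, hx, hnorm]
          have hn0 := nn_nonneg hS u.2.tst
          have hq0 := qq_nonneg hS u.2.tst
          rcases le_total (x 0) (y 0) with h | h
          · have h3 := point_diff hS u.2.tst h
            have h4 : 0 ≤ S (y 0) - S (x 0) := by
              have := hS.strictMono.monotone h
              linarith
            rw [abs_of_nonneg h4]
            refine h3.trans (mul_le_mul_of_nonneg_left (by linarith) h4)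
          · have h3 := point_diff hS u.2.tst h
            have h4 : 0 ≤ S (x 0) - S (y 0) := by
              have := hS.strictMono.monotone h
              linarith
            rw [abs_sub_comm, abs_of_nonneg h4, norm_sub_rev]
            refine h3.trans (mul_le_mul_of_nonneg_left (by linarith) h4)
        have h3 := Real.sqrt_le_sqrt h2
        rw [Real.sqrt_sq (norm_nonneg _), Real.sqrt_mul (abs_nonneg _),
          Real.sqrt_sq (norm_nonneg _)] at h3
        exact h3
      have h2 := h1 (D y - D x)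
      rw [inner_self_eq_norm_sq_to_K, norm_pow, RCLike.norm_ofReal, abs_of_nonneg (norm_nonneg _),
        sq] at h2
      by_cases h0 : ‖D y - D x‖ = 0
      · rw [h0, zero_pow two_ne_zero]; positivity
      · have hpos : 0 < ‖D y - D x‖ := lt_of_le_of_ne (norm_nonneg _) (Ne.symm h0)
        have h3 := le_of_mul_le_mul_right h2 hpos
        have h4 := pow_le_pow_left₀ (norm_nonneg _) h3 2
        rwa [Real.sq_sqrt (abs_nonneg _)] at h4
    unfold ContinuousAt
    rw [tendsto_iff_norm_sub_tendsto_zero]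
    have h1 : Tendsto (fun y : E 1 => Real.sqrt |S (y 0) - S (x 0)|) (𝓝 x) (𝓝 0) := by
      have h2 : Continuous fun y : E 1 => Real.sqrt |S (y 0) - S (x 0)| := by
        have := hS.smooth.continuous
        fun_prop
      have h3 := h2.tendsto x
      simpa using h3
    refine squeeze_zero (fun _ => norm_nonneg _) (fun y => ?_) h1
    exact Real.le_sqrt_of_sq_le (hmod y)
  have hker := isHeatKernel_kern (HH S hS) MeasurableSet.univ hj hin hJ1 hJ (D := D)
    (fun x _ u => hD x u) hDc.continuousOn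
  refine ⟨kern J D, Phi J (D 0), hker, ?_, ?_, ?_, ?_⟩
  · intro T hT
    exact hk_upper J hJ1 (D 0) hT
  · intro T l L hT hl hlL
    exact hk_lower J hJ1 (D 0) hT hl hlL
  · intro l x1 x2 hl h1 h12
    refine Phi_upper J hJ1 hl (D 0) _ fun v => ?_
    refine dense_ineq hj (f := fun v => 2 * ‖inner ℂ (D 0) v‖)
      (g := fun v => (‖v‖ ^ 2 - (1 - l) * ‖J v‖ ^ 2) + (S x2 / 2 + 1 / (2 * l * (x2 - x1))))
      (by fun_prop) (by fun_prop) (fun u => ?_) v
    rw [hD, hnorm, hJnorm]
    have h3 := point_upper hS u.2.tst hl h1 h12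
    have h4 : ((u : E 1 → ℂ) ∘ io) 0 = (u : E 1 → ℂ) 0 := by
      rw [Function.comp_apply, io_zero]
    rw [h4] at h3
    linarith
  · intro l x1 hl hx1
    -- cutoffs with small loss
    refine le_of_forall_pos_le_add fun η hη => ?_
    have hSc : Continuous S := hS.smooth.continuous
    -- choose ε
    have hev : ∀ᶠ ε in 𝓝[>] (0 : ℝ), (S x1 - S (x1 - ε)) + S ε < 2 * η := by
      have h1 : Tendsto (fun ε : ℝ => (S x1 - S (x1 - ε)) + S ε) (𝓝 0) (𝓝 0) := by
        have h2 : Continuous fun ε : ℝ => (S x1 - S (x1 - ε)) + S ε := by fun_prop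
        have h3 := h2.tendsto 0
        simpa [hS.zero] using h3
      exact (h1.eventually (gt_mem_nhds (by linarith))).filter_mono nhdsWithin_le_nhds
    have hev2 : ∀ᶠ ε in 𝓝[>] (0 : ℝ), ε < x1 / 2 :=
      Filter.Eventually.filter_mono nhdsWithin_le_nhds
        (Iio_mem_nhds (by positivity : (0 : ℝ) < x1 / 2))
    obtain ⟨ε, ⟨hε1, hε2⟩, hε0⟩ := ((hev.and hev2).and self_mem_nhdsWithin).exists
    have hε0' : 0 < ε := hε0
    obtain ⟨h, hh, hone⟩ := exists_cut (a := 0) (b := x1) (ε := ε) le_rfl hε0' (by linarith)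
    rw [zero_add] at hone
    have hN1 := NN_ge hS hh hε0'.le (show ε ≤ x1 - ε by linarith) (by linarith) hone
    have hN2 := NN_le hS hh
    have hN0 := NN_nonneg hS hh
    have htst := tf_tst hS hh
    let u : testSub (univ : Set (E 1)) := ⟨fun x => tf S h x1 (x 0), htst.isTest⟩
    have hu : ((u : E 1 → ℂ) ∘ io) = tf S h x1 := comp_io (tf S h x1)
    have hlow := Phi_lower J hJ1 hl (D 0) (j u)
    rw [hD, hnorm, hJnorm, hu] at hlow
    have h0 : (u : E 1 → ℂ) 0 = ((NN S h x1 / 2 : ℝ) : ℂ) := by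
      show tf S h x1 ((0 : E 1) 0) = _
      exact tf_zero hS hh
    rw [h0, Complex.ofReal_re] at hlow
    have hq := tf_qq hS hh
    have hn := tf_nn_le hS hh
    have hln := mul_le_mul_of_nonneg_left hn hl.le
    have hsq : NN S h x1 ^ 2 ≤ S x1 ^ 2 := pow_le_pow_left₀ hN0 hN2 2
    have hx1sq : l * (x1 * NN S h x1 ^ 2 / 2) ≤ l * x1 * S x1 ^ 2 / 2 := by
      have := mul_le_mul_of_nonneg_left hsq (show 0 ≤ l * x1 / 2 by positivity)
      linarith
    linarith

end Pool.Agent.HeatRatio
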