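import Pool.Agent.Lib.MP_ca5fa5_an.FormSpace

set_option autoImplicit false

open MeasureTheory Filter Topology
open scoped ComplexConjugate ContDiff

namespace Pool.Agent.HeatRatio

variable {d : ℕ} {Ω : Set (E d)}

lemma integral_conj_mul_symm (u v : E d → ℂ) :
    conj (∫ x in Ω, conj (v x) * u x) = ∫ x in Ω, conj (u x) * v x := by
  rw [← integral_conj]
  congr 1
  funext x
  simp only [map_mul, Complex.conj_conj]
  ring

lemma integral_conj_mul_self (u : E d → ℂ) :
    ∫ x in Ω, conj (u x) * u x = ((∫ x in Ω, ‖u x‖ ^ 2 : ℝ) : ℂ) := by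
  rw [← integral_complex_ofReal]
  congr 1
  funext x
  rw [Complex.conj_mul']
  norm_cast

/-- The pre-inner product on test functions. -/
@[reducible] noncomputable def formCore (H : Coeff d Ω) (hΩ : MeasurableSet Ω)
    (hnn : ∀ u, IsTest Ω u → 0 ≤ (H.form u u).re) :
    PreInnerProductSpace.Core ℂ (testSub Ω) where
  inner u v := H.inn u v
  conj_inner_symm u v := by
    unfold Coeff.inn
    rw [map_add, H.form_conj_symm hΩ, integral_conj_mul_symm]
  re_inner_nonneg u := by
    unfold Coeff.inn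
    rw [integral_conj_mul_self]
    have h1 := hnn u u.2
    have h2 : 0 ≤ ∫ x in Ω, ‖(u : E d → ℂ) x‖ ^ 2 := integral_nonneg fun x => by positivity
    simp only [RCLike.re_eq_complex_re, Complex.add_re, Complex.ofReal_re]
    linarith
  add_left u v w := by
    unfold Coeff.inn
    rw [Submodule.coe_add, H.form_add_left u.2 v.2 w.2]
    have : ∫ x in Ω, conj (((u : E d → ℂ) + v) x) * (w : E d → ℂ) x =
        (∫ x in Ω, conj ((u : E d → ℂ) x) * (w : E d → ℂ) x) +
        ∫ x in Ω, conj ((v : E d → ℂ) x) * (w : E d → ℂ) x := by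
      rw [← integral_add (integrable_conj_mul u.2 w.2) (integrable_conj_mul v.2 w.2)]
      congr 1
      funext x
      rw [Pi.add_apply, map_add, add_mul]
    rw [this]
    ring
  smul_left u v c := by
    unfold Coeff.inn
    rw [Submodule.coe_smul, H.form_smul_left u.2]
    have : ∫ x in Ω, conj ((c • (u : E d → ℂ)) x) * (v : E d → ℂ) x =
        conj c * ∫ x in Ω, conj ((u : E d → ℂ) x) * (v : E d → ℂ) x := by
      rw [← integral_const_mul]
      congr 1
      funext x
      rw [Pi.smul_apply, smul_eq_mul, map_mul, mul_assoc]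
    rw [this]
    ring

lemma norm_toLp_sq {u : E d → ℂ} (hu : IsTest Ω u) :
    ‖(hu.memLp.toLp u : L2 (vol Ω))‖ ^ 2 = ∫ x in Ω, ‖u x‖ ^ 2 := by
  have h1 : (inner ℂ (hu.memLp.toLp u : L2 (vol Ω)) (hu.memLp.toLp u)) =
      ((‖(hu.memLp.toLp u : L2 (vol Ω))‖ ^ 2 : ℝ) : ℂ) := by
    rw [inner_self_eq_norm_sq_to_K]; norm_cast
  rw [MeasureTheory.L2.inner_def] at h1
  have h2 : ∫ x in Ω, inner ℂ ((hu.memLp.toLp u : L2 (vol Ω)) x) ((hu.memLp.toLp u : L2 (vol Ω)) x) =
      ((∫ x in Ω, ‖u x‖ ^ 2 : ℝ) : ℂ) := by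
    rw [← integral_complex_ofReal]
    refine integral_congr_ae ?_
    filter_upwards [hu.memLp.coeFn_toLp] with x hx
    rw [hx, inner_self_eq_norm_sq_to_K]
    norm_cast
  rw [h2] at h1
  exact_mod_cast h1.symm

/-- Completion of a pre-inner product space. -/
theorem exists_completion {M : Type} [AddCommGroup M] [Module ℂ M]
    (core : PreInnerProductSpace.Core ℂ M) :
    ∃ (V : Type) (_ : NormedAddCommGroup V) (_ : InnerProductSpace ℂ V) (_ : CompleteSpace V)
      (j : M →ₗ[ℂ] V), DenseRange j ∧ ∀ u v, inner ℂ (j u) (j v) = core.inner u v := by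
  let i1 : SeminormedAddCommGroup M :=
    @InnerProductSpace.Core.toSeminormedAddCommGroup ℂ M _ _ _ core
  let i2 : InnerProductSpace ℂ M := InnerProductSpace.ofCore core
  let j : M →ₗ[ℂ] UniformSpace.Completion M :=
    (UniformSpace.Completion.toComplL (𝕜 := ℂ) (E := M)).toLinearMap
  have hj : ∀ u, j u = (u : UniformSpace.Completion M) := fun u => rfl
  refine ⟨UniformSpace.Completion M, inferInstance, inferInstance, inferInstance, j,
    UniformSpace.Completion.denseRange_coe, fun u v => ?_⟩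
  rw [hj, hj, UniformSpace.Completion.inner_coe]

/-- Existence of the Hilbert space of the form together with its inclusion in `L²`. -/
theorem exists_formHilbert (H : Coeff d Ω) (hΩ : MeasurableSet Ω)
    (hnn : ∀ u, IsTest Ω u → 0 ≤ (H.form u u).re) :
    ∃ (V : Type) (_ : NormedAddCommGroup V) (_ : InnerProductSpace ℂ V) (_ : CompleteSpace V)
      (j : testSub Ω →ₗ[ℂ] V) (J : V →L[ℂ] L2 (vol Ω)), DenseRange j ∧
      (∀ u v : testSub Ω, inner ℂ (j u) (j v) = H.inn u v) ∧ ‖J‖ ≤ 1 ∧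
      ∀ u : testSub Ω, J (j u) = (IsTest.memLp u.2).toLp u := by
  obtain ⟨V, i1, i2, i3, j, hdense, hinner'⟩ := exists_completion (formCore H hΩ hnn)
  have hinner : ∀ u v : testSub Ω, inner ℂ (j u) (j v) = H.inn u v := fun u v => hinner' u v
  let f : testSub Ω →ₗ[ℂ] L2 (vol Ω) :=
    { toFun := fun u => (IsTest.memLp u.2).toLp u
      map_add' := fun u v => MemLp.toLp_add (IsTest.memLp u.2) (IsTest.memLp v.2)
      map_smul' := fun c u => MemLp.toLp_const_smul c (IsTest.memLp u.2) }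
  have hbound : ∀ u, ‖f u‖ ≤ 1 * ‖j u‖ := by
    intro u
    rw [one_mul]
    refine le_of_sq_le_sq ?_ (norm_nonneg _)
    have h1 : ‖f u‖ ^ 2 = ∫ x in Ω, ‖(u : E d → ℂ) x‖ ^ 2 := norm_toLp_sq u.2
    have h2 : ((‖j u‖ ^ 2 : ℝ) : ℂ) = inner ℂ (j u) (j u) := by
      rw [inner_self_eq_norm_sq_to_K]; norm_cast
    rw [hinner] at h2
    have h3 : ‖j u‖ ^ 2 = (H.form u u).re + ∫ x in Ω, ‖(u : E d → ℂ) x‖ ^ 2 := by
      have h4 := congrArg Complex.re h2
      unfold Coeff.inn at h4
      rw [integral_conj_mul_self, Complex.add_re, Complex.ofReal_re, Complex.ofReal_re] at h4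
      exact h4
    rw [h1, h3]
    have := hnn u u.2
    linarith
  refine ⟨V, i1, i2, i3, j, f.extendOfNorm j, hdense, hinner, ?_, ?_⟩
  · exact LinearMap.opNorm_extendOfNorm_le hdense zero_le_one hbound
  · intro u
    exact LinearMap.extendOfNorm_eq hdense ⟨1, hbound⟩ u

end Pool.Agent.HeatRatio
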