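import Pool.Agent.Lib.MP_ca5fa5_an.Hilbert

set_option autoImplicit false

open MeasureTheory Filter Topology
open scoped ComplexConjugate ContDiff

namespace Pool.Agent.HeatRatio

variable {d : ℕ} {Ω : Set (E d)}

section

variable {V : Type} [NormedAddCommGroup V] [InnerProductSpace ℂ V] [CompleteSpace V]

lemma exists_seq_dense {j : testSub Ω →ₗ[ℂ] V} (hj : DenseRange j) (w : V) :
    ∃ u : ℕ → testSub Ω, Tendsto (fun n => j (u n)) atTop (𝓝 w) := by
  have h : ∀ n : ℕ, ∃ u : testSub Ω, dist w (j u) < 1 / ((n : ℝ) + 1) := fun n =>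
    hj.exists_dist_lt w (by positivity)
  choose u hu using h
  refine ⟨u, ?_⟩
  rw [tendsto_iff_dist_tendsto_zero]
  refine squeeze_zero (fun _ => dist_nonneg) (fun n => ?_) tendsto_one_div_add_atTop_nhds_zero_nat
  rw [dist_comm]
  exact (hu n).le

lemma norm_j_sq {H : Coeff d Ω} {j : testSub Ω →ₗ[ℂ] V}
    (hin : ∀ u v : testSub Ω, inner ℂ (j u) (j v) = H.inn u v) (u : testSub Ω) :
    ‖j u‖ ^ 2 = (H.form u u).re + ∫ x in Ω, ‖(u : E d → ℂ) x‖ ^ 2 := by
  have h2 : ((‖j u‖ ^ 2 : ℝ) : ℂ) = inner ℂ (j u) (j u) := by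
    rw [inner_self_eq_norm_sq_to_K]; norm_cast
  rw [hin] at h2
  have h4 := congrArg Complex.re h2
  unfold Coeff.inn at h4
  rw [integral_conj_mul_self, Complex.add_re, Complex.ofReal_re, Complex.ofReal_re] at h4
  exact h4

lemma inner_toLp {v : E d → ℂ} (hv : IsTest Ω v) (f : L2 (vol Ω)) :
    inner ℂ (hv.memLp.toLp v : L2 (vol Ω)) f = ∫ x in Ω, conj (v x) * f x := by
  rw [MeasureTheory.L2.inner_def]
  refine integral_congr_ae ?_
  filter_upwards [hv.memLp.coeFn_toLp] with x hx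
  rw [hx, RCLike.inner_apply, mul_comm]

/-- `J J†` is the resolvent `(H+1)⁻¹`. -/
theorem isResolvent_RR (H : Coeff d Ω) {j : testSub Ω →ₗ[ℂ] V} {J : V →L[ℂ] L2 (vol Ω)}
    (hj : DenseRange j) (hin : ∀ u v : testSub Ω, inner ℂ (j u) (j v) = H.inn u v)
    (hJ : ∀ u : testSub Ω, J (j u) = (IsTest.memLp u.2).toLp u) :
    IsResolvent (vol Ω) {u | IsTest Ω u} H.form (RR J) := by
  intro f
  obtain ⟨u, hu⟩ := exists_seq_dense hj (ContinuousLinearMap.adjoint J f)
  refine ⟨fun n => u n, fun n => (u n).2, ?_, ?_, ?_⟩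
  · have h1 : Tendsto (fun n => J (j (u n))) atTop (𝓝 (RR J f)) :=
      (J.continuous.tendsto _).comp hu
    rw [Lp.tendsto_Lp_iff_tendsto_eLpNorm'] at h1
    refine h1.congr fun n => ?_
    refine eLpNorm_congr_ae ?_
    have h2 := (IsTest.memLp (u n).2).coeFn_toLp
    rw [hJ]
    filter_upwards [h2] with x hx
    rw [Pi.sub_apply, hx]
  · intro ε hε
    have h1 : CauchySeq (fun n => j (u n)) := hu.cauchySeq
    rw [Metric.cauchySeq_iff] at h1
    obtain ⟨N, hN⟩ := h1 (Real.sqrt ε) (Real.sqrt_pos.2 hε)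
    refine ⟨N, fun m hm n hn => ?_⟩
    have h2 := hN m hm n hn
    rw [dist_eq_norm, ← map_sub] at h2
    have h3 := norm_j_sq hin (u m - u n)
    have h4 : ‖j (u m - u n)‖ ^ 2 < ε := by
      have := Real.lt_sqrt (norm_nonneg (j (u m - u n))) |>.1 h2
      exact this
    have h5 : 0 ≤ ∫ x in Ω, ‖((u m - u n : testSub Ω) : E d → ℂ) x‖ ^ 2 :=
      integral_nonneg fun x => by positivity
    have h6 : (H.form (((u m - u n : testSub Ω) : E d → ℂ)) (((u m - u n : testSub Ω)) : E d → ℂ)).re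
      < ε := by linarith
    exact h6
  · intro v hv
    have h1 : Tendsto (fun n => inner ℂ (j ⟨v, hv⟩) (j (u n))) atTop
        (𝓝 (inner ℂ (j ⟨v, hv⟩) (ContinuousLinearMap.adjoint J f))) :=
      (tendsto_const_nhds).inner hu
    rw [ContinuousLinearMap.adjoint_inner_right, hJ, inner_toLp hv] at h1
    refine h1.congr fun n => ?_
    rw [hin]
    rfl

/-- Pointwise representation of `J v`. -/
theorem J_ae {j : testSub Ω →ₗ[ℂ] V} {J : V →L[ℂ] L2 (vol Ω)} (hΩ : MeasurableSet Ω)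
    (hj : DenseRange j) (hJ : ∀ u : testSub Ω, J (j u) = (IsTest.memLp u.2).toLp u)
    {D : E d → V} (hD : ∀ x ∈ Ω, ∀ u : testSub Ω, inner ℂ (D x) (j u) = (u : E d → ℂ) x) (v : V) :
    ⇑(J v) =ᵐ[volume.restrict Ω] fun x => inner ℂ (D x) v := by
  obtain ⟨u, hu⟩ := exists_seq_dense hj v
  have h1 : Tendsto (fun n => J (j (u n))) atTop (𝓝 (J v)) := (J.continuous.tendsto _).comp hu
  have h2 := tendstoInMeasure_of_tendsto_Lp h1
  obtain ⟨ns, hns, h3⟩ := h2.exists_seq_tendsto_ae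
  have h4 : ∀ᵐ x ∂(volume.restrict Ω), ∀ n, (J (j (u n)) : E d → ℂ) x = (u n : E d → ℂ) x := by
    rw [ae_all_iff]
    intro n
    rw [hJ]
    exact (IsTest.memLp (u n).2).coeFn_toLp
  filter_upwards [h3, h4, ae_restrict_mem hΩ] with x hx3 hx4 hxΩ
  have h5 : Tendsto (fun n => (u (ns n) : E d → ℂ) x) atTop (𝓝 (inner ℂ (D x) v)) := by
    have h6 : Tendsto (fun n => inner ℂ (D x) (j (u (ns n)))) atTop (𝓝 (inner ℂ (D x) v)) :=
      tendsto_const_nhds.inner (hu.comp hns.tendsto_atTop)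
    refine h6.congr fun n => hD x hxΩ _
  have h7 : Tendsto (fun n => (u (ns n) : E d → ℂ) x) atTop (𝓝 ((J v) x)) := by
    refine hx3.congr fun n => ?_
    exact hx4 (ns n)
  exact tendsto_nhds_unique h7 h5

/-- Conjugation on test functions. -/
noncomputable def conjTest (u : testSub Ω) : testSub Ω := ⟨fun x => conj ((u : E d → ℂ) x), u.2.conj⟩

lemma Coeff.form_conj (H : Coeff d Ω) {u v : E d → ℂ} (hu : IsTest Ω u) (hv : IsTest Ω v) :
    H.form (fun x => conj (u x)) (fun x => conj (v x)) = conj (H.form u v) := by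
  rw [H.form_eq, H.form_eq, ← integral_conj]
  congr 1
  funext x
  unfold Coeff.integrand
  simp only [pd_conj hu, pd_conj hv, map_add, map_sum, map_mul, Complex.conj_conj,
    Complex.conj_ofReal]

lemma norm_j_conj {H : Coeff d Ω} {j : testSub Ω →ₗ[ℂ] V}
    (hin : ∀ u v : testSub Ω, inner ℂ (j u) (j v) = H.inn u v) (u : testSub Ω) :
    ‖j (conjTest u)‖ ^ 2 = ‖j u‖ ^ 2 := by
  rw [norm_j_sq hin, norm_j_sq hin]
  congr 1
  · have h := H.form_conj u.2 u.2
    have h2 := congrArg Complex.re h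
    rw [Complex.conj_re] at h2
    exact h2
  · congr 1
    funext x
    show ‖conj ((u : E d → ℂ) x)‖ ^ 2 = _
    rw [RCLike.norm_conj]

/-- The reproducing kernel is real. -/
lemma D_real {H : Coeff d Ω} {j : testSub Ω →ₗ[ℂ] V}
    (hj : DenseRange j) (hin : ∀ u v : testSub Ω, inner ℂ (j u) (j v) = H.inn u v)
    {D : E d → V} (hD : ∀ x ∈ Ω, ∀ u : testSub Ω, inner ℂ (D x) (j u) = (u : E d → ℂ) x)
    {x y : E d} (hx : x ∈ Ω) (hy : y ∈ Ω) : (inner ℂ (D x) (D y)).im = 0 := by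
  obtain ⟨u, hu⟩ := exists_seq_dense hj (D y)
  have h1 : Tendsto (fun n => j (conjTest (u n))) atTop (𝓝 (D y)) := by
    rw [tendsto_iff_norm_sub_tendsto_zero] at hu ⊢
    refine hu.congr fun n => ?_
    rw [← sq_eq_sq₀ (norm_nonneg _) (norm_nonneg _), @norm_sub_sq ℂ, @norm_sub_sq ℂ,
      norm_j_conj hin]
    congr 2
    rw [← inner_conj_symm (j (u n)), ← inner_conj_symm (j (conjTest (u n))), hD y hy, hD y hy]
    show 2 * RCLike.re (conj ((u n : E d → ℂ) y)) = 2 * RCLike.re (conj (conj ((u n : E d → ℂ) y)))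
    simp
  have h2 : Tendsto (fun n => (u n : E d → ℂ) x) atTop (𝓝 (inner ℂ (D x) (D y))) := by
    refine (tendsto_const_nhds.inner hu).congr fun n => hD x hx _
  have h3 : Tendsto (fun n => conj ((u n : E d → ℂ) x)) atTop (𝓝 (inner ℂ (D x) (D y))) := by
    refine (tendsto_const_nhds.inner h1).congr fun n => hD x hx _
  have h4 := (Complex.continuous_conj.tendsto _).comp h2
  have h5 := tendsto_nhds_unique h3 h4
  exact Complex.conj_eq_iff_im.1 h5.symm

end

end Pool.Agent.HeatRatio
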