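import Pool.Agent.Lib.MP_ca5fa5_an.Kernel

set_option autoImplicit false

open MeasureTheory Filter Topology
open scoped ComplexConjugate ContDiff

namespace Pool.Agent.HeatRatio

variable {d : ℕ} {Ω : Set (E d)}
variable {V : Type} [NormedAddCommGroup V] [InnerProductSpace ℂ V] [CompleteSpace V]

/-- A vector is real if all its point values are. -/
def RealVec (Ω : Set (E d)) (D : E d → V) (v : V) : Prop := ∀ x ∈ Ω, (inner ℂ (D x) v).im = 0

lemma RealVec.add {D : E d → V} {v w : V} (hv : RealVec Ω D v) (hw : RealVec Ω D w) :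
    RealVec Ω D (v + w) := by
  intro x hx
  rw [inner_add_right, Complex.add_im, hv x hx, hw x hx, add_zero]

lemma RealVec.smul {D : E d → V} {v : V} (a : ℝ) (hv : RealVec Ω D v) :
    RealVec Ω D (a • v) := by
  intro x hx
  rw [inner_smul_right_eq_smul, Complex.smul_im, hv x hx, smul_zero]

lemma realVec_KK {j : testSub Ω →ₗ[ℂ] V} {J : V →L[ℂ] L2 (vol Ω)} (hΩ : MeasurableSet Ω)
    (hj : DenseRange j) (hJ : ∀ u : testSub Ω, J (j u) = (IsTest.memLp u.2).toLp u)
    {D : E d → V} (hD : ∀ x ∈ Ω, ∀ u : testSub Ω, inner ℂ (D x) (j u) = (u : E d → ℂ) x)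
    (hreal : ∀ x ∈ Ω, RealVec Ω D (D x)) {v : V} (hv : RealVec Ω D v) :
    RealVec Ω D (KK J v) := by
  intro x hx
  rw [KK_apply, ContinuousLinearMap.adjoint_inner_right, MeasureTheory.L2.inner_def]
  have h1 := J_ae hΩ hj hJ hD (D x)
  have h2 := J_ae hΩ hj hJ hD v
  have h3 : ∫ y in Ω, inner ℂ ((J (D x)) y) ((J v) y) =
      ((∫ y in Ω, (inner ℂ (D y) (D x)).re * (inner ℂ (D y) v).re : ℝ) : ℂ) := by
    rw [← integral_complex_ofReal]
    refine integral_congr_ae ?_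
    filter_upwards [h1, h2, ae_restrict_mem hΩ] with y hy1 hy2 hyΩ
    rw [hy1, hy2, RCLike.inner_apply]
    have h4 : inner ℂ (D y) (D x) = ((inner ℂ (D y) (D x)).re : ℂ) := by
      apply Complex.ext
      · simp
      · simpa using hreal x hx y hyΩ
    have h5 : inner ℂ (D y) v = ((inner ℂ (D y) v).re : ℂ) := by
      apply Complex.ext
      · simp
      · simpa using hv y hyΩ
    rw [h4, h5]
    simp only [Complex.conj_ofReal, Complex.ofReal_re]
    push_cast
    ring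
  rw [h3, Complex.ofReal_im]

lemma realVec_pow {j : testSub Ω →ₗ[ℂ] V} {J : V →L[ℂ] L2 (vol Ω)} (hΩ : MeasurableSet Ω)
    (hj : DenseRange j) (hJ : ∀ u : testSub Ω, J (j u) = (IsTest.memLp u.2).toLp u)
    {D : E d → V} (hD : ∀ x ∈ Ω, ∀ u : testSub Ω, inner ℂ (D x) (j u) = (u : E d → ℂ) x)
    (hreal : ∀ x ∈ Ω, RealVec Ω D (D x)) (n : ℕ) {v : V} (hv : RealVec Ω D v) :
    RealVec Ω D ((KK J ^ n) v) := by
  induction n with
  | zero => exact hv
  | succ n ih =>
    rw [pow_succ']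
    exact realVec_KK hΩ hj hJ hD hreal ih

lemma realVec_aeval {j : testSub Ω →ₗ[ℂ] V} {J : V →L[ℂ] L2 (vol Ω)} (hΩ : MeasurableSet Ω)
    (hj : DenseRange j) (hJ : ∀ u : testSub Ω, J (j u) = (IsTest.memLp u.2).toLp u)
    {D : E d → V} (hD : ∀ x ∈ Ω, ∀ u : testSub Ω, inner ℂ (D x) (j u) = (u : E d → ℂ) x)
    (hreal : ∀ x ∈ Ω, RealVec Ω D (D x)) (p : Polynomial ℝ) {v : V} (hv : RealVec Ω D v) :
    RealVec Ω D ((Polynomial.aeval (KK J) p) v) := by
  induction p using Polynomial.induction_on' with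
  | add p q hp hq =>
    rw [map_add]
    exact hp.add hq
  | monomial n a =>
    rw [Polynomial.aeval_monomial, Algebra.algebraMap_eq_smul_one, smul_mul_assoc, one_mul]
    exact (realVec_pow hΩ hj hJ hD hreal n hv).smul a

lemma realVec_cfc {j : testSub Ω →ₗ[ℂ] V} {J : V →L[ℂ] L2 (vol Ω)} (hΩ : MeasurableSet Ω)
    (hJ1 : ‖J‖ ≤ 1)
    (hj : DenseRange j) (hJ : ∀ u : testSub Ω, J (j u) = (IsTest.memLp u.2).toLp u)
    {D : E d → V} (hD : ∀ x ∈ Ω, ∀ u : testSub Ω, inner ℂ (D x) (j u) = (u : E d → ℂ) x)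
    (hreal : ∀ x ∈ Ω, RealVec Ω D (D x)) {f : ℝ → ℝ} (hf : ContinuousOn f (Set.Icc 0 1))
    {v : V} (hv : RealVec Ω D v) :
    RealVec Ω D (cfc f (KK J) v) := by
  intro x hx
  have hs := KK_spectrum J hJ1
  rw [← abs_eq_zero]
  refine le_antisymm (le_of_forall_pos_le_add fun ε hε => ?_) (abs_nonneg _)
  rw [zero_add]
  obtain ⟨η, hη, hηε⟩ : ∃ η > 0, ‖D x‖ * (η * ‖v‖) ≤ ε := by
    refine ⟨ε / (‖D x‖ * ‖v‖ + 1), by positivity, ?_⟩
    have h1 : ‖D x‖ * (ε / (‖D x‖ * ‖v‖ + 1) * ‖v‖) =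
        ε * (‖D x‖ * ‖v‖ / (‖D x‖ * ‖v‖ + 1)) := by
      field_simp
    rw [h1]
    have h2 : ‖D x‖ * ‖v‖ / (‖D x‖ * ‖v‖ + 1) ≤ 1 := (div_le_one (by positivity)).2 (by linarith)
    nlinarith
  obtain ⟨p, hp⟩ := exists_polynomial_near_of_continuousOn 0 1 f hf η hη
  have hdA : ‖cfc f (KK J) - Polynomial.aeval (KK J) p‖ ≤ η := by
    rw [← cfc_polynomial p (KK J) (KK_selfAdjoint J),
      ← cfc_sub _ _ _ (hf.mono hs) p.continuous.continuousOn]
    refine norm_cfc_le hη.le fun x hx => ?_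
    rw [Real.norm_eq_abs, abs_sub_comm]
    exact (hp x (hs hx)).le
  have h1 : (inner ℂ (D x) (cfc f (KK J) v)).im =
      (inner ℂ (D x) ((cfc f (KK J) - Polynomial.aeval (KK J) p) v)).im := by
    have h2 := realVec_aeval hΩ hj hJ hD hreal p hv x hx
    rw [sub_apply, inner_sub_right, Complex.sub_im, h2, sub_zero]
  rw [h1]
  calc |(inner ℂ (D x) ((cfc f (KK J) - Polynomial.aeval (KK J) p) v)).im|
      ≤ ‖inner ℂ (D x) ((cfc f (KK J) - Polynomial.aeval (KK J) p) v)‖ :=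
        Complex.abs_im_le_norm _
    _ ≤ ‖D x‖ * ‖(cfc f (KK J) - Polynomial.aeval (KK J) p) v‖ := norm_inner_le_norm _ _
    _ ≤ ‖D x‖ * (η * ‖v‖) := by
        refine mul_le_mul_of_nonneg_left ?_ (norm_nonneg _)
        exact (ContinuousLinearMap.le_opNorm _ _).trans
          (mul_le_mul_of_nonneg_right hdA (norm_nonneg _))
    _ ≤ ε := hηε

/-- The heat kernel built from the reproducing vectors `D x`. -/
noncomputable def kern (J : V →L[ℂ] L2 (vol Ω)) (D : E d → V) (t : ℝ) (x y : E d) : ℝ :=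
  (inner ℂ (D x) (cfc (kap t) (KK J) (D y))).re

theorem isHeatKernel_kern (H : Coeff d Ω) (hΩ : MeasurableSet Ω) {j : testSub Ω →ₗ[ℂ] V}
    {J : V →L[ℂ] L2 (vol Ω)} (hj : DenseRange j)
    (hin : ∀ u v : testSub Ω, inner ℂ (j u) (j v) = H.inn u v) (hJ1 : ‖J‖ ≤ 1)
    (hJ : ∀ u : testSub Ω, J (j u) = (IsTest.memLp u.2).toLp u)
    {D : E d → V} (hD : ∀ x ∈ Ω, ∀ u : testSub Ω, inner ℂ (D x) (j u) = (u : E d → ℂ) x)
    (hDc : ContinuousOn D Ω) : H.IsHeatKernel (kern J D) := by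
  refine ⟨RR J, isResolvent_RR H hj hin hJ, fun t ht => ⟨?_, fun f => ?_⟩⟩
  · unfold kern
    refine Complex.continuous_re.comp_continuousOn ?_
    refine ContinuousOn.inner (𝕜 := ℂ) (hDc.comp continuousOn_fst fun p hp => hp.1) ?_
    exact (ContinuousLinearMap.continuous _).comp_continuousOn
      (hDc.comp continuousOn_snd fun p hp => hp.2)
  · have hreal : ∀ x ∈ Ω, RealVec Ω D (D x) := fun x hx y hy => D_real hj hin hD hy hx
    have hkc : ContinuousOn (kap t) (Set.Icc 0 1) := (kap_continuous ht).continuousOn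
    have h1 : heatOp (RR J) t f =
        J (cfc (kap t) (KK J) (ContinuousLinearMap.adjoint J f)) := by
      rw [heatOp_RR J hJ1 ht]
      rfl
    unfold Op.fn Op.heat
    rw [h1]
    have h3 := J_ae hΩ hj hJ hD (cfc (kap t) (KK J) (ContinuousLinearMap.adjoint J f))
    filter_upwards [h3, ae_restrict_mem hΩ] with x hx hxΩ
    rw [hx]
    -- move everything to the left
    have hsa : IsSelfAdjoint (cfc (kap t) (KK J)) := cfc_predicate _ _
    have h4 : inner ℂ (D x) (cfc (kap t) (KK J) (ContinuousLinearMap.adjoint J f)) =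
        inner ℂ (J (cfc (kap t) (KK J) (D x))) f := by
      rw [← ContinuousLinearMap.adjoint_inner_right]
      have h5 : ContinuousLinearMap.adjoint (cfc (kap t) (KK J)) = cfc (kap t) (KK J) :=
        hsa.adjoint_eq
      conv_lhs => rw [← h5]
      rw [ContinuousLinearMap.adjoint_inner_right]
    rw [h4, MeasureTheory.L2.inner_def]
    refine integral_congr_ae ?_
    have h6 := J_ae hΩ hj hJ hD (cfc (kap t) (KK J) (D x))
    filter_upwards [h6, ae_restrict_mem hΩ] with y hy hyΩ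
    rw [hy, RCLike.inner_apply]
    have h7 : conj (inner ℂ (D y) (cfc (kap t) (KK J) (D x))) =
        inner ℂ (D x) (cfc (kap t) (KK J) (D y)) := by
      rw [inner_conj_symm]
      have h5 : ContinuousLinearMap.adjoint (cfc (kap t) (KK J)) = cfc (kap t) (KK J) :=
        hsa.adjoint_eq
      conv_lhs => rw [← h5]
      rw [ContinuousLinearMap.adjoint_inner_left]
    have h8 : inner ℂ (D x) (cfc (kap t) (KK J) (D y)) = (kern J D t x y : ℂ) := by
      apply Complex.ext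
      · simp [kern]
      · rw [Complex.ofReal_im]
        exact realVec_cfc hΩ hJ1 hj hJ hD hreal hkc (hreal y hyΩ) x hxΩ
    rw [h7, h8, mul_comm]

end Pool.Agent.HeatRatio
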