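import Pool.Agent.Lib.MP_ca5fa5_an.Kernel2
import Pool.Agent.Lib.MP_ca5fa5_an.Family

set_option autoImplicit false

open MeasureTheory Filter Topology Set
open scoped ComplexConjugate ContDiff

namespace Pool.Agent.HeatRatio

/-- the line as `E 1` -/
noncomputable def io (s : ℝ) : E 1 := EuclideanSpace.single 0 s

lemma io_apply (s : ℝ) : io s 0 = s := by simp [io]

lemma io_zero : io 0 = 0 := by
  ext i
  simp [io]

lemma io_coord (x : E 1) : io (x 0) = x := by
  ext i
  fin_cases i
  simp [io]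

lemma integral_E1 {G : Type*} [NormedAddCommGroup G] [NormedSpace ℝ G] (F : E 1 → G) :
    ∫ x, F x = ∫ s, F (io s) := by
  have h1 := EuclideanSpace.volume_preserving_symm_measurableEquiv_toLp (Fin 1)
  have h2 := volume_preserving_funUnique (Fin 1) ℝ
  have h3 : MeasurePreserving (fun x : E 1 => x 0) volume volume := h2.comp h1
  have h4 : MeasurableEmbedding (fun x : E 1 => x 0) :=
    (((MeasurableEquiv.toLp 2 (Fin 1 → ℝ)).symm).trans
      (MeasurableEquiv.funUnique (Fin 1) ℝ)).measurableEmbedding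
  rw [← h3.integral_comp h4 (fun s => F (io s))]
  congr 1
  funext x
  rw [io_coord]

lemma io_hasDerivAt (s : ℝ) : HasDerivAt io (EuclideanSpace.single 0 1 : E 1) s := by
  have h : io = fun s : ℝ => s • (EuclideanSpace.single 0 1 : E 1) := by
    funext s
    ext i
    simp [io]
  rw [h]
  simpa using (hasDerivAt_id s).smul_const (EuclideanSpace.single 0 1 : E 1)

lemma io_smooth : ContDiff ℝ ∞ io := by
  have h : io = fun s : ℝ => s • (EuclideanSpace.single 0 1 : E 1) := by
    funext s
    ext i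
    simp [io]
  rw [h]
  exact contDiff_id.smul contDiff_const

lemma io_closedEmbedding : IsClosedEmbedding io := by
  have h1 : Isometry io := by
    refine Isometry.of_dist_eq fun a b => ?_
    rw [EuclideanSpace.dist_eq]
    simp [io, Real.sqrt_sq_eq_abs, Real.dist_eq]
  exact h1.isClosedEmbedding

lemma IsTest.tst {u : E 1 → ℂ} (hu : IsTest univ u) : Tst (u ∘ io) :=
  ⟨hu.1.comp io_smooth, hu.2.1.comp_isClosedEmbedding io_closedEmbedding⟩

lemma pd_io {u : E 1 → ℂ} (hu : IsTest univ u) (s : ℝ) : pd 0 u (io s) = deriv (u ∘ io) s := by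
  unfold pd
  have h := (hu.differentiable (io s)).hasFDerivAt.comp_hasDerivAt s (io_hasDerivAt s)
  rw [h.deriv]

lemma Tst.isTest {w : ℝ → ℂ} (hw : Tst w) : IsTest univ (fun x : E 1 => w (x 0)) := by
  have hc : ContDiff ℝ ∞ (fun x : E 1 => x 0) := by
    exact (EuclideanSpace.proj (0 : Fin 1) : E 1 →L[ℝ] ℝ).contDiff
  refine ⟨hw.smooth.comp hc, ?_, subset_univ _⟩
  have h1 : IsCompact (io '' tsupport w) := hw.supp.image io_smooth.continuous
  refine HasCompactSupport.intro h1 fun x hx => ?_
  apply image_eq_zero_of_notMem_tsupport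
  intro h
  exact hx ⟨x 0, h, io_coord x⟩

lemma comp_io (w : ℝ → ℂ) : (fun x : E 1 => w (x 0)) ∘ io = w := by
  funext s
  simp [io]

/-- The operator `-(d/dx) (1/S') (d/dx)` on the line. -/
noncomputable def HH (S : ℝ → ℝ) (hS : Resist S) : Coeff 1 univ where
  A := fun x => Matrix.of fun _ _ => 1 / deriv S (x 0)
  V := fun _ => 0
  measA := fun i j => by
    have h : Continuous fun x : E 1 => 1 / deriv S (x 0) := by
      refine continuous_const.div (hS.deriv_cont.comp (by fun_prop)) fun x => (hS.pos _).ne'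
    exact h.measurable
  measV := measurable_const
  symm := fun x _ => by
    ext i j
    simp
  bddA := fun K _ hK => by
    have h : Continuous fun x : E 1 => 1 / deriv S (x 0) := by
      refine continuous_const.div (hS.deriv_cont.comp (by fun_prop)) fun x => (hS.pos _).ne'
    obtain ⟨C, hC⟩ := hK.exists_bound_of_continuousOn h.continuousOn
    exact ⟨C, fun x hx i j => by simpa using hC x hx⟩
  bddV := fun K _ _ => ⟨0, fun x _ => by simp⟩
  ell := fun K _ hK => by
    have h : Continuous fun x : E 1 => 1 / deriv S (x 0) := by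
      refine continuous_const.div (hS.deriv_cont.comp (by fun_prop)) fun x => (hS.pos _).ne'
    rcases K.eq_empty_or_nonempty with hKe | hKn
    · refine ⟨1, one_pos, fun x hx => ?_⟩
      rw [hKe] at hx
      exact absurd hx (notMem_empty x)
    · obtain ⟨x0, hx0, hmin⟩ := hK.exists_isMinOn hKn h.continuousOn
      refine ⟨1 / deriv S (x0 0), one_div_pos.2 (hS.pos _), fun x hx ξ => ?_⟩
      have h1 : 1 / deriv S (x0 0) ≤ 1 / deriv S (x 0) := hmin hx
      simp only [Fin.sum_univ_one, Matrix.of_apply, Finset.univ_unique, Fin.default_eq_zero,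
        Fin.isValue, Finset.sum_singleton]
      have h2 := mul_le_mul_of_nonneg_right h1 (sq_nonneg (ξ 0))
      calc 1 / deriv S (x0 0) * ξ 0 ^ 2 ≤ 1 / deriv S (x 0) * ξ 0 ^ 2 := h2
        _ = 1 / deriv S (x 0) * ξ 0 * ξ 0 := by ring

lemma HH_form {S : ℝ → ℝ} (hS : Resist S) {u v : E 1 → ℂ} (hu : IsTest univ u)
    (hv : IsTest univ v) : (HH S hS).form u v =
      ∫ s, ((1 / deriv S s : ℝ) : ℂ) * (conj (deriv (u ∘ io) s) * deriv (v ∘ io) s) := by
  unfold Coeff.form vol
  rw [Measure.restrict_univ, integral_E1]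
  congr 1
  funext s
  simp only [HH, Finset.univ_unique, Fin.default_eq_zero, Finset.sum_singleton, Matrix.of_apply,
    pd_io hu, pd_io hv, io_apply, Complex.ofReal_zero, zero_mul, add_zero]

lemma HH_form_self {S : ℝ → ℝ} (hS : Resist S) {u : E 1 → ℂ} (hu : IsTest univ u) :
    ((HH S hS).form u u).re = qq S (u ∘ io) := by
  rw [HH_form hS hu hu]
  have h1 : ∀ s, ((1 / deriv S s : ℝ) : ℂ) * (conj (deriv (u ∘ io) s) * deriv (u ∘ io) s) =
      ((‖deriv (u ∘ io) s‖ ^ 2 / deriv S s : ℝ) : ℂ) := by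
    intro s
    rw [Complex.conj_mul']
    push_cast
    ring
  simp only [h1]
  rw [integral_complex_ofReal, Complex.ofReal_re]
  rfl

lemma nn_eq (u : E 1 → ℂ) : ∫ x in (univ : Set (E 1)), ‖u x‖ ^ 2 = nn (u ∘ io) := by
  rw [Measure.restrict_univ, integral_E1]
  rfl

lemma HH_nonneg {S : ℝ → ℝ} (hS : Resist S) (u : E 1 → ℂ) (hu : IsTest univ u) :
    0 ≤ ((HH S hS).form u u).re := by
  rw [HH_form_self hS hu]
  exact qq_nonneg hS hu.tst

end Pool.Agent.HeatRatio
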