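import Mathlib

set_option autoImplicit false

open MeasureTheory Filter Topology Set
open scoped ComplexConjugate ContDiff

namespace Pool.Agent.HeatRatio

/-- Resistance functions: `S` smooth, odd, with positive derivative; `ρ = S'`. -/
structure Resist (S : ℝ → ℝ) : Prop where
  smooth : ContDiff ℝ ∞ S
  odd : ∀ x, S (-x) = -S x
  pos : ∀ x, 0 < deriv S x

/-- Smooth compactly supported functions on the line. -/
structure Tst (w : ℝ → ℂ) : Prop where
  smooth : ContDiff ℝ ∞ w
  supp : HasCompactSupport w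

/-- the energy -/
noncomputable def qq (S : ℝ → ℝ) (w : ℝ → ℂ) : ℝ := ∫ x, ‖deriv w x‖ ^ 2 / deriv S x

/-- the mass -/
noncomputable def nn (w : ℝ → ℂ) : ℝ := ∫ x, ‖w x‖ ^ 2

section
variable {S : ℝ → ℝ} (hS : Resist S) {w : ℝ → ℂ} (hw : Tst w)
include hS

lemma Resist.deriv_cont : Continuous (deriv S) := hS.smooth.continuous_deriv (by simp)

lemma Resist.deriv_even (x : ℝ) : deriv S (-x) = deriv S x := by
  have h : (fun x => S (-x)) = fun x => -S x := funext hS.odd
  have h1 := congrArg (fun f => deriv f x) h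
  simp only [deriv_comp_neg, deriv.fun_neg] at h1
  linarith

lemma Resist.integral_deriv (a b : ℝ) : ∫ x in a..b, deriv S x = S b - S a :=
  intervalIntegral.integral_deriv_eq_sub
    (fun x _ => (hS.smooth.differentiable (by simp)) x)
    (hS.deriv_cont.intervalIntegrable _ _)

lemma Resist.strictMono : StrictMono S := strictMono_of_deriv_pos hS.pos

lemma Resist.zero : S 0 = 0 := by
  have := hS.odd 0
  rw [neg_zero] at this
  linarith

include hw

lemma Tst.deriv_cont : Continuous (deriv w) := hw.smooth.continuous_deriv (by simp)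

lemma integrable_q : Integrable (fun x => ‖deriv w x‖ ^ 2 / deriv S x) := by
  refine Continuous.integrable_of_hasCompactSupport ?_ ?_
  · exact ((Tst.deriv_cont hS hw).norm.pow 2).div hS.deriv_cont fun x => (hS.pos x).ne'
  · have h1 : HasCompactSupport (deriv w) := hw.supp.deriv
    refine h1.mono' ?_
    intro x hx
    apply subset_closure
    intro h0
    apply hx
    simp [h0]

lemma integrable_n : Integrable (fun x => ‖w x‖ ^ 2) := by
  refine Continuous.integrable_of_hasCompactSupport (hw.smooth.continuous.norm.pow 2) ?_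
  refine hw.supp.mono' ?_
  intro x hx
  apply subset_closure
  intro h0
  apply hx
  simp [h0]

lemma qq_nonneg : 0 ≤ qq S w := integral_nonneg fun x =>
  div_nonneg (by positivity) (hS.pos x).le

lemma nn_nonneg : 0 ≤ nn w := integral_nonneg fun x => by positivity

lemma q_le {a b : ℝ} (hab : a ≤ b) : ∫ x in a..b, ‖deriv w x‖ ^ 2 / deriv S x ≤ qq S w := by
  rw [intervalIntegral.integral_of_le hab]
  exact setIntegral_le_integral (integrable_q hS hw)
    (Eventually.of_forall fun x => div_nonneg (by positivity) (hS.pos x).le)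

lemma n_le {a b : ℝ} (hab : a ≤ b) : ∫ x in a..b, ‖w x‖ ^ 2 ≤ nn w := by
  rw [intervalIntegral.integral_of_le hab]
  exact setIntegral_le_integral (integrable_n hS hw)
    (Eventually.of_forall fun x => by positivity)

/-- The basic inequality (weighted arithmetic-geometric mean). -/
lemma norm_sub_le_interval {a b : ℝ} (hab : a ≤ b) {ε : ℝ} (hε : 0 < ε) :
    ‖w b - w a‖ ≤ ε / 2 * (∫ x in a..b, ‖deriv w x‖ ^ 2 / deriv S x) + (S b - S a) / (2 * ε) := by
  have hd : ∫ x in a..b, deriv w x = w b - w a :=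
    intervalIntegral.integral_deriv_eq_sub
      (fun x _ => (hw.smooth.differentiable (by simp)) x)
      ((Tst.deriv_cont hS hw).intervalIntegrable _ _)
  have hq : IntervalIntegrable (fun x => ‖deriv w x‖ ^ 2 / deriv S x) volume a b :=
    (integrable_q hS hw).intervalIntegrable
  have hs : IntervalIntegrable (deriv S) volume a b := hS.deriv_cont.intervalIntegrable _ _
  rw [← hd]
  calc ‖∫ x in a..b, deriv w x‖ ≤ ∫ x in a..b, ‖deriv w x‖ :=
        intervalIntegral.norm_integral_le_integral_norm hab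
    _ ≤ ∫ x in a..b, (ε / 2 * (‖deriv w x‖ ^ 2 / deriv S x) + (1 / (2 * ε)) * deriv S x) := by
        refine intervalIntegral.integral_mono_on hab
          ((Tst.deriv_cont hS hw).norm.intervalIntegrable _ _)
          ((hq.const_mul _).add (hs.const_mul _)) fun x _ => ?_
        have hp := hS.pos x
        have h1 : ε / 2 * (‖deriv w x‖ ^ 2 / deriv S x) + (1 / (2 * ε)) * deriv S x - ‖deriv w x‖
            = (ε * ‖deriv w x‖ - deriv S x) ^ 2 / (2 * ε * deriv S x) := by
          field_simp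
          ring
        have h2 : 0 ≤ (ε * ‖deriv w x‖ - deriv S x) ^ 2 / (2 * ε * deriv S x) := by positivity
        linarith
    _ = _ := by
        rw [intervalIntegral.integral_add (hq.const_mul _) (hs.const_mul _),
          intervalIntegral.integral_const_mul, intervalIntegral.integral_const_mul,
          hS.integral_deriv]
        ring

/-- Lemma U. -/
lemma point_upper {l x1 x2 : ℝ} (hl : 0 < l) (h1 : 0 ≤ x1) (h12 : x1 < x2) :
    2 * ‖w 0‖ ≤ qq S w + l * nn w + (S x2 / 2 + 1 / (2 * l * (x2 - x1))) := by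
  have hℓ : 0 < x2 - x1 := by linarith
  have hx2 : 0 < x2 := by linarith
  -- pointwise inequality
  have hpt : ∀ z : ℝ, ‖w z‖ ≤ l * (x2 - x1) * ‖w z‖ ^ 2 + 1 / (4 * l * (x2 - x1)) := by
    intro z
    have h : l * (x2 - x1) * ‖w z‖ ^ 2 + 1 / (4 * l * (x2 - x1)) - ‖w z‖ =
        (2 * l * (x2 - x1) * ‖w z‖ - 1) ^ 2 / (4 * l * (x2 - x1)) := by
      field_simp
      ring
    have h2 : 0 ≤ (2 * l * (x2 - x1) * ‖w z‖ - 1) ^ 2 / (4 * l * (x2 - x1)) := by positivity
    linarith
  have hn : ∀ a b : ℝ, IntervalIntegrable (fun x => ‖w x‖ ^ 2) volume a b := fun a b =>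
    (integrable_n hS hw).intervalIntegrable
  have hqi : ∀ a b : ℝ, IntervalIntegrable (fun x => ‖deriv w x‖ ^ 2 / deriv S x) volume a b :=
    fun a b => (integrable_q hS hw).intervalIntegrable
  have hqnn : ∀ x : ℝ, 0 ≤ ‖deriv w x‖ ^ 2 / deriv S x := fun x =>
    div_nonneg (by positivity) (hS.pos x).le
  -- right side
  have hR : ‖w 0‖ ≤ l * (∫ x in x1..x2, ‖w x‖ ^ 2) + 1 / (4 * l * (x2 - x1)) +
      (∫ x in (0 : ℝ)..x2, ‖deriv w x‖ ^ 2 / deriv S x) + S x2 / 4 := by
    have hp : ∀ y ∈ Icc x1 x2, ‖w 0‖ - (∫ x in (0 : ℝ)..x2, ‖deriv w x‖ ^ 2 / deriv S x) - S x2 / 4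
        - 1 / (4 * l * (x2 - x1)) ≤ l * (x2 - x1) * ‖w y‖ ^ 2 := by
      intro y hy
      have h0y : 0 ≤ y := h1.trans hy.1
      have h2 := norm_sub_le_interval hS hw h0y (ε := 2) (by norm_num)
      have h3 : ∫ x in (0 : ℝ)..y, ‖deriv w x‖ ^ 2 / deriv S x ≤
          ∫ x in (0 : ℝ)..x2, ‖deriv w x‖ ^ 2 / deriv S x := by
        refine intervalIntegral.integral_mono_interval le_rfl h0y hy.2
          (Eventually.of_forall hqnn) (hqi _ _)
      have h4 : S y ≤ S x2 := hS.strictMono.monotone hy.2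
      have h5 : ‖w 0‖ ≤ ‖w y‖ + ‖w y - w 0‖ := by
        have := norm_sub_norm_le (w 0) (w y)
        rw [norm_sub_rev] at this
        linarith
      have h6 := hpt y
      rw [hS.zero] at h2
      linarith
    have hint := intervalIntegral.integral_mono_on (a := x1) (b := x2) h12.le
      (intervalIntegrable_const) ((hn x1 x2).const_mul (l * (x2 - x1))) hp
    rw [intervalIntegral.integral_const, intervalIntegral.integral_const_mul, smul_eq_mul] at hint
    have := le_of_mul_le_mul_left (hint.trans_eq (show l * (x2 - x1) * (∫ x in x1..x2, ‖w x‖ ^ 2) =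
      (x2 - x1) * (l * (∫ x in x1..x2, ‖w x‖ ^ 2)) by ring)) hℓ
    linarith
  -- left side
  have hL : ‖w 0‖ ≤ l * (∫ x in (-x2)..(-x1), ‖w x‖ ^ 2) + 1 / (4 * l * (x2 - x1)) +
      (∫ x in (-x2)..0, ‖deriv w x‖ ^ 2 / deriv S x) + S x2 / 4 := by
    have hp : ∀ y ∈ Icc (-x2) (-x1),
        ‖w 0‖ - (∫ x in (-x2)..0, ‖deriv w x‖ ^ 2 / deriv S x) - S x2 / 4
        - 1 / (4 * l * (x2 - x1)) ≤ l * (x2 - x1) * ‖w y‖ ^ 2 := by
      intro y hy
      have h0y : y ≤ 0 := by linarith [hy.2]
      have h2 := norm_sub_le_interval hS hw h0y (ε := 2) (by norm_num)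
      have h3 : ∫ x in y..0, ‖deriv w x‖ ^ 2 / deriv S x ≤
          ∫ x in (-x2)..0, ‖deriv w x‖ ^ 2 / deriv S x := by
        refine intervalIntegral.integral_mono_interval hy.1 h0y le_rfl
          (Eventually.of_forall hqnn) (hqi _ _)
      have h4 : -S x2 ≤ S y := by
        rw [← hS.odd]; exact hS.strictMono.monotone hy.1
      have h5 : ‖w 0‖ ≤ ‖w y‖ + ‖w 0 - w y‖ := by
        have := norm_sub_norm_le (w 0) (w y)
        linarith
      have h6 := hpt y
      rw [hS.zero] at h2
      linarith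
    have hint := intervalIntegral.integral_mono_on (a := -x2) (b := -x1) (by linarith)
      (intervalIntegrable_const) ((hn (-x2) (-x1)).const_mul (l * (x2 - x1))) hp
    rw [intervalIntegral.integral_const, intervalIntegral.integral_const_mul, smul_eq_mul] at hint
    have h7 : (-x1 - -x2) = x2 - x1 := by ring
    rw [h7] at hint
    have := le_of_mul_le_mul_left (hint.trans_eq
      (show l * (x2 - x1) * (∫ x in (-x2)..(-x1), ‖w x‖ ^ 2) =
      (x2 - x1) * (l * (∫ x in (-x2)..(-x1), ‖w x‖ ^ 2)) by ring)) hℓ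
    linarith
  -- sums
  have hqs : (∫ x in (-x2)..0, ‖deriv w x‖ ^ 2 / deriv S x) +
      (∫ x in (0 : ℝ)..x2, ‖deriv w x‖ ^ 2 / deriv S x) ≤ qq S w := by
    rw [intervalIntegral.integral_add_adjacent_intervals (hqi _ _) (hqi _ _)]
    exact q_le hS hw (by linarith)
  have hns : (∫ x in (-x2)..(-x1), ‖w x‖ ^ 2) + (∫ x in x1..x2, ‖w x‖ ^ 2) ≤ nn w := by
    have h8 : 0 ≤ ∫ x in (-x1)..x1, ‖w x‖ ^ 2 :=
      intervalIntegral.integral_nonneg (by linarith) fun x _ => by positivity
    have h9 : (∫ x in (-x2)..(-x1), ‖w x‖ ^ 2) + (∫ x in (-x1)..x1, ‖w x‖ ^ 2) +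
        (∫ x in x1..x2, ‖w x‖ ^ 2) = ∫ x in (-x2)..x2, ‖w x‖ ^ 2 := by
      rw [intervalIntegral.integral_add_adjacent_intervals (hn _ _) (hn _ _),
        intervalIntegral.integral_add_adjacent_intervals (hn _ _) (hn _ _)]
    have h10 := n_le hS hw (show -x2 ≤ x2 by linarith)
    linarith
  have h11 : 1 / (2 * l * (x2 - x1)) = 1 / (4 * l * (x2 - x1)) + 1 / (4 * l * (x2 - x1)) := by
    field_simp
    ring
  rw [h11]
  have h12' := mul_le_mul_of_nonneg_left hns hl.le
  rw [mul_add] at h12'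
  linarith

/-- Local boundedness of point evaluation. -/
lemma point_bound (x : ℝ) :
    ‖w x‖ ^ 2 ≤ (2 + (S (x + 1) - S x)) * (2 * (qq S w + nn w)) := by
  have hn : IntervalIntegrable (fun x => ‖w x‖ ^ 2) volume x (x + 1) :=
    (integrable_n hS hw).intervalIntegrable
  have hqi : ∀ a b : ℝ, IntervalIntegrable (fun x => ‖deriv w x‖ ^ 2 / deriv S x) volume a b :=
    fun a b => (integrable_q hS hw).intervalIntegrable
  have hqnn : ∀ x : ℝ, 0 ≤ ‖deriv w x‖ ^ 2 / deriv S x := fun x =>
    div_nonneg (by positivity) (hS.pos x).le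
  have hq0 := qq_nonneg hS hw
  have hn0 := nn_nonneg hS hw
  have hSx : 0 < S (x + 1) - S x := by
    have := hS.strictMono (show x < x + 1 by linarith)
    linarith
  set R := S (x + 1) - S x with hR
  -- for every ε, ‖w x‖ ≤ ε (q + n) /2 + (1+R)/(2ε)
  have hε : ∀ ε : ℝ, 0 < ε → ‖w x‖ ≤ ε / 2 * (qq S w + nn w) + (1 + R) / (2 * ε) := by
    intro ε hε
    have hp : ∀ y ∈ Icc x (x + 1), ‖w x‖ - ε / 2 * qq S w - R / (2 * ε) - 1 / (2 * ε) ≤
        ε / 2 * ‖w y‖ ^ 2 := by
      intro y hy
      have h2 := norm_sub_le_interval hS hw hy.1 hε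
      have h3 := q_le hS hw hy.1
      have h4 : S y - S x ≤ R := by
        have := hS.strictMono.monotone hy.2
        linarith
      have h5 : ‖w x‖ ≤ ‖w y‖ + ‖w y - w x‖ := by
        have := norm_sub_norm_le (w x) (w y)
        rw [norm_sub_rev] at this
        linarith
      have h6 : ‖w y‖ ≤ ε / 2 * ‖w y‖ ^ 2 + 1 / (2 * ε) := by
        have h : ε / 2 * ‖w y‖ ^ 2 + 1 / (2 * ε) - ‖w y‖ = (ε * ‖w y‖ - 1) ^ 2 / (2 * ε) := by
          field_simp
          ring
        have h2 : 0 ≤ (ε * ‖w y‖ - 1) ^ 2 / (2 * ε) := by positivity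
        linarith
      have h7 : ε / 2 * (∫ x in x..y, ‖deriv w x‖ ^ 2 / deriv S x) ≤ ε / 2 * qq S w :=
        mul_le_mul_of_nonneg_left h3 (by positivity)
      have h8 : (S y - S x) / (2 * ε) ≤ R / (2 * ε) :=
        div_le_div_of_nonneg_right h4 (by positivity)
      linarith
    have hint := intervalIntegral.integral_mono_on (a := x) (b := x + 1) (by linarith)
      (intervalIntegrable_const) (hn.const_mul (ε / 2)) hp
    rw [intervalIntegral.integral_const, intervalIntegral.integral_const_mul, smul_eq_mul,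
      add_sub_cancel_left, one_mul] at hint
    have h9 := mul_le_mul_of_nonneg_left (n_le hS hw (show x ≤ x + 1 by linarith))
      (show 0 ≤ ε / 2 by positivity)
    have h10 : (1 + R) / (2 * ε) = R / (2 * ε) + 1 / (2 * ε) := by ring
    rw [h10]
    linarith
  by_cases h0 : ‖w x‖ = 0
  · rw [h0, zero_pow two_ne_zero]
    positivity
  · have hpos : 0 < ‖w x‖ := lt_of_le_of_ne (norm_nonneg _) (Ne.symm h0)
    have h1 := hε ((1 + R) / ‖w x‖) (by positivity)
    have h2 : (1 + R) / (2 * ((1 + R) / ‖w x‖)) = ‖w x‖ / 2 := by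
      field_simp
    rw [h2] at h1
    have h3 : ‖w x‖ / 2 ≤ (1 + R) / ‖w x‖ / 2 * (qq S w + nn w) := by linarith
    have h4 := mul_le_mul_of_nonneg_right h3 (show 0 ≤ 2 * ‖w x‖ by positivity)
    have h5 : ‖w x‖ / 2 * (2 * ‖w x‖) = ‖w x‖ ^ 2 := by ring
    have h6 : (1 + R) / ‖w x‖ / 2 * (qq S w + nn w) * (2 * ‖w x‖) =
        (1 + R) * (qq S w + nn w) := by
      field_simp
    rw [h5, h6] at h4
    nlinarith

/-- Modulus of continuity. -/
lemma point_diff {x y : ℝ} (hxy : x ≤ y) : ‖w y - w x‖ ^ 2 ≤ (S y - S x) * qq S w := by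
  have hq0 := qq_nonneg hS hw
  have hSx : 0 ≤ S y - S x := by
    have := hS.strictMono.monotone hxy
    linarith
  have hε : ∀ ε : ℝ, 0 < ε → ‖w y - w x‖ ≤ ε / 2 * qq S w + (S y - S x) / (2 * ε) := by
    intro ε hε
    have h2 := norm_sub_le_interval hS hw hxy hε
    have h3 := mul_le_mul_of_nonneg_left (q_le hS hw hxy) (show 0 ≤ ε / 2 by positivity)
    linarith
  by_cases h0 : ‖w y - w x‖ = 0
  · rw [h0, zero_pow two_ne_zero]
    positivity
  · have hpos : 0 < ‖w y - w x‖ := lt_of_le_of_ne (norm_nonneg _) (Ne.symm h0)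
    rcases hSx.eq_or_lt with hR | hR
    · -- zero resistance: then the difference vanishes
      exfalso
      rw [← hR] at hε
      have h1 := hε (‖w y - w x‖ / (qq S w + 1)) (by positivity)
      rw [zero_div, add_zero] at h1
      have h2 : ‖w y - w x‖ / (qq S w + 1) / 2 * qq S w =
          ‖w y - w x‖ * (qq S w / (qq S w + 1)) / 2 := by ring
      rw [h2] at h1
      have h3 : qq S w / (qq S w + 1) ≤ 1 := (div_le_one (by positivity)).2 (by linarith)
      nlinarith
    · have h1 := hε ((S y - S x) / ‖w y - w x‖) (by positivity)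
      have h2 : (S y - S x) / (2 * ((S y - S x) / ‖w y - w x‖)) = ‖w y - w x‖ / 2 := by
        field_simp
      rw [h2] at h1
      have h3 : ‖w y - w x‖ / 2 ≤ (S y - S x) / ‖w y - w x‖ / 2 * qq S w := by linarith
      have h4 := mul_le_mul_of_nonneg_right h3 (show 0 ≤ 2 * ‖w y - w x‖ by positivity)
      have h5 : ‖w y - w x‖ / 2 * (2 * ‖w y - w x‖) = ‖w y - w x‖ ^ 2 := by ring
      have h6 : (S y - S x) / ‖w y - w x‖ / 2 * qq S w * (2 * ‖w y - w x‖) =
          (S y - S x) * qq S w := by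
        field_simp
      rw [h5, h6] at h4
      exact h4

/-- Pointwise bound by the energy when the total resistance is finite. -/
lemma point_hardy {G : ℝ} (hG : ∀ x, S x ≤ G) (x : ℝ) : ‖w x‖ ^ 2 ≤ 2 * G * qq S w := by
  -- choose y beyond the support
  obtain ⟨M, hM⟩ := hw.supp.isBounded.subset_closedBall 0
  have hy : w (max x (M + 1)) = 0 := by
    apply image_eq_zero_of_notMem_tsupport
    intro h
    have h2 := hM h
    rw [mem_closedBall_zero_iff, Real.norm_eq_abs] at h2
    have h3 := (le_abs_self _).trans h2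
    have h4 := le_max_right x (M + 1)
    linarith
  have h1 := point_diff hS hw (le_max_left x (M + 1))
  rw [hy, zero_sub, norm_neg] at h1
  have h2 : S (max x (M + 1)) - S x ≤ 2 * G := by
    have h3 := hG (max x (M + 1))
    have h4 := hG (-x)
    rw [hS.odd] at h4
    linarith
  exact h1.trans (mul_le_mul_of_nonneg_right h2 (qq_nonneg hS hw))

end

end Pool.Agent.HeatRatio
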