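import Pool.Agent.Lib.MP_ca5fa5_an.OneD

set_option autoImplicit false

open MeasureTheory Filter Topology Set
open scoped ComplexConjugate ContDiff

namespace Pool.Agent.HeatRatio

/-- Cutoffs on the positive half line. -/
structure Cut (h : ℝ → ℝ) (x0 x1 : ℝ) : Prop where
  smooth : ContDiff ℝ ∞ h
  nonneg : ∀ s, 0 ≤ h s
  le_one : ∀ s, h s ≤ 1
  zero_left : ∀ s ≤ x0, h s = 0
  zero_right : ∀ s, x1 ≤ s → h s = 0
  x0_nonneg : 0 ≤ x0
  x01 : x0 < x1

/-- the odd flow density -/
noncomputable def gg (S h : ℝ → ℝ) (s : ℝ) : ℝ := deriv S s * (h s - h (-s))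

/-- the resistance of the cutoff -/
noncomputable def NN (S h : ℝ → ℝ) (x1 : ℝ) : ℝ := ∫ s in (0 : ℝ)..x1, deriv S s * h s

/-- primitive -/
noncomputable def PP (S h : ℝ → ℝ) (x : ℝ) : ℝ := ∫ s in (0 : ℝ)..x, gg S h s

/-- the test function -/
noncomputable def tf (S h : ℝ → ℝ) (x1 : ℝ) (x : ℝ) : ℂ := (((NN S h x1 - PP S h x) / 2 : ℝ) : ℂ)

section
variable {S h : ℝ → ℝ} {x0 x1 : ℝ} (hS : Resist S) (hh : Cut h x0 x1)
include hS hh

lemma gg_smooth : ContDiff ℝ ∞ (gg S h) := by
  unfold gg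
  have h1 : ContDiff ℝ ∞ (deriv S) := (contDiff_infty_iff_deriv.1 hS.smooth).2
  exact h1.mul (hh.smooth.sub (hh.smooth.comp contDiff_neg))

lemma gg_odd (s : ℝ) : gg S h (-s) = -gg S h s := by
  unfold gg
  rw [hS.deriv_even, neg_neg]
  ring

lemma gg_cont : Continuous (gg S h) := (gg_smooth hS hh).continuous

lemma PP_deriv (x : ℝ) : HasDerivAt (PP S h) (gg S h x) x :=
  intervalIntegral.integral_hasDerivAt_right ((gg_cont hS hh).intervalIntegrable _ _)
    ((gg_cont hS hh).stronglyMeasurableAtFilter _ _) (gg_cont hS hh).continuousAt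

lemma PP_even (x : ℝ) : PP S h (-x) = PP S h x := by
  unfold PP
  have h1 : ∫ s in (0 : ℝ)..x, gg S h (-s) = ∫ s in (-x)..(-0), gg S h s :=
    intervalIntegral.integral_comp_neg (f := gg S h)
  rw [neg_zero] at h1
  have h2 : ∫ s in (0 : ℝ)..x, gg S h (-s) = -∫ s in (0 : ℝ)..x, gg S h s := by
    rw [← intervalIntegral.integral_neg]
    congr 1
    funext s
    exact gg_odd hS hh s
  rw [intervalIntegral.integral_symm]
  rw [← h1, h2, neg_neg]

lemma gg_pos_side {s : ℝ} (hs : 0 ≤ s) : gg S h s = deriv S s * h s := by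
  unfold gg
  have h1 : h (-s) = 0 := hh.zero_left _ (by linarith [hh.x0_nonneg])
  rw [h1, sub_zero]

lemma gg_nonneg {s : ℝ} (hs : 0 ≤ s) : 0 ≤ gg S h s := by
  rw [gg_pos_side hS hh hs]
  exact mul_nonneg (hS.pos s).le (hh.nonneg s)

lemma PP_ge {x : ℝ} (hx : x1 ≤ |x|) : PP S h x = NN S h x1 := by
  have h1 : PP S h x = PP S h |x| := by
    rcases abs_choice x with h | h
    · rw [h]
    · rw [h, PP_even hS hh]
  rw [h1]
  have hx1 : 0 ≤ x1 := hh.x0_nonneg.trans hh.x01.le
  unfold PP NN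
  rw [← intervalIntegral.integral_add_adjacent_intervals
    ((gg_cont hS hh).intervalIntegrable 0 x1) ((gg_cont hS hh).intervalIntegrable x1 |x|)]
  have h2 : ∫ s in x1..|x|, gg S h s = 0 := by
    rw [intervalIntegral.integral_congr (g := fun _ => (0 : ℝ))]
    · simp
    · intro s hs
      rw [uIcc_of_le hx] at hs
      show gg S h s = 0
      rw [gg_pos_side hS hh (hx1.trans hs.1), hh.zero_right s hs.1, mul_zero]
  rw [h2, add_zero]
  refine intervalIntegral.integral_congr fun s hs => ?_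
  rw [uIcc_of_le hx1] at hs
  exact gg_pos_side hS hh hs.1

lemma PP_le_x0 {x : ℝ} (hx : |x| ≤ x0) : PP S h x = 0 := by
  have h1 : PP S h x = PP S h |x| := by
    rcases abs_choice x with h | h
    · rw [h]
    · rw [h, PP_even hS hh]
  rw [h1]
  unfold PP
  rw [intervalIntegral.integral_congr (g := fun _ => (0 : ℝ))]
  · simp
  · intro s hs
    rw [uIcc_of_le (abs_nonneg x)] at hs
    show gg S h s = 0
    rw [gg_pos_side hS hh hs.1, hh.zero_left s (hs.2.trans hx), mul_zero]

lemma PP_nonneg (x : ℝ) : 0 ≤ PP S h x := by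
  have h1 : PP S h x = PP S h |x| := by
    rcases abs_choice x with h | h
    · rw [h]
    · rw [h, PP_even hS hh]
  rw [h1]
  exact intervalIntegral.integral_nonneg (abs_nonneg x) fun s hs => gg_nonneg hS hh hs.1

lemma PP_le (x : ℝ) : PP S h x ≤ NN S h x1 := by
  have h1 : PP S h x = PP S h |x| := by
    rcases abs_choice x with h | h
    · rw [h]
    · rw [h, PP_even hS hh]
  rw [h1]
  by_cases hx : x1 ≤ |x|
  · rw [PP_ge hS hh (by rwa [abs_abs])]
  · have h2 := PP_ge hS hh (x := x1) (le_abs_self x1)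
    rw [← h2]
    unfold PP
    refine intervalIntegral.integral_mono_interval le_rfl (abs_nonneg x) (not_le.1 hx).le ?_
      ((gg_cont hS hh).intervalIntegrable _ _)
    refine (ae_restrict_iff' measurableSet_Ioc).2 (Eventually.of_forall fun s hs => ?_)
    exact gg_nonneg hS hh hs.1.le

lemma NN_nonneg : 0 ≤ NN S h x1 := (PP_nonneg hS hh 0).trans (PP_le hS hh 0)

lemma tf_deriv (x : ℝ) : HasDerivAt (tf S h x1) ((-(gg S h x) / 2 : ℝ) : ℂ) x := by
  have h1 : HasDerivAt (fun x => (NN S h x1 - PP S h x) / 2) (-(gg S h x) / 2) x :=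
    ((PP_deriv hS hh x).const_sub (NN S h x1)).div_const 2
  exact h1.ofReal_comp

lemma tf_tst : Tst (tf S h x1) := by
  constructor
  · have h1 : ContDiff ℝ ∞ (PP S h) := by
      rw [contDiff_infty_iff_deriv]
      refine ⟨fun x => (PP_deriv hS hh x).differentiableAt, ?_⟩
      have : deriv (PP S h) = gg S h := funext fun x => (PP_deriv hS hh x).deriv
      rw [this]
      exact gg_smooth hS hh
    exact Complex.ofRealCLM.contDiff.comp ((contDiff_const.sub h1).div_const 2)
  · refine HasCompactSupport.intro (isCompact_Icc (a := -x1) (b := x1)) fun x hx => ?_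
    have h1 : x1 ≤ |x| := by
      by_contra hlt
      rw [not_le, abs_lt] at hlt
      exact hx ⟨hlt.1.le, hlt.2.le⟩
    unfold tf
    rw [PP_ge hS hh h1, sub_self, zero_div]
    rfl

lemma tf_of_le {x : ℝ} (hx : |x| ≤ x0) : tf S h x1 x = ((NN S h x1 / 2 : ℝ) : ℂ) := by
  unfold tf
  rw [PP_le_x0 hS hh hx, sub_zero]

lemma tf_zero : tf S h x1 0 = ((NN S h x1 / 2 : ℝ) : ℂ) :=
  tf_of_le hS hh (by rw [abs_zero]; exact hh.x0_nonneg)

lemma tf_of_ge {x : ℝ} (hx : x1 ≤ |x|) : tf S h x1 x = 0 := by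
  unfold tf
  rw [PP_ge hS hh hx, sub_self, zero_div]
  rfl

lemma tf_norm_le (x : ℝ) : ‖tf S h x1 x‖ ≤ NN S h x1 / 2 := by
  unfold tf
  rw [Complex.norm_real, Real.norm_eq_abs, abs_of_nonneg]
  · have := PP_nonneg hS hh x
    linarith
  · have := PP_le hS hh x
    linarith

lemma integral_real_eq {F : ℝ → ℝ} (hF : ∀ x, x1 ≤ |x| → F x = 0) :
    ∫ x, F x = ∫ x in (-x1)..x1, F x := by
  symm
  apply intervalIntegral.integral_eq_integral_of_support_subset
  intro x hx
  by_contra hx'
  apply hx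
  apply hF
  by_contra hlt
  rw [not_le, abs_lt] at hlt
  exact hx' ⟨hlt.1, hlt.2.le⟩

lemma tf_qq : qq S (tf S h x1) ≤ NN S h x1 / 2 := by
  have hx1 : 0 ≤ x1 := hh.x0_nonneg.trans hh.x01.le
  have hF : ∀ x, ‖deriv (tf S h x1) x‖ ^ 2 / deriv S x = deriv S x * (h x - h (-x)) ^ 2 / 4 := by
    intro x
    rw [(tf_deriv hS hh x).deriv, Complex.norm_real, Real.norm_eq_abs, sq_abs]
    unfold gg
    have := (hS.pos x).ne'
    field_simp
    ring
  unfold qq
  simp only [hF]
  rw [integral_real_eq hS hh (x1 := x1)]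
  · have hc : Continuous fun x => deriv S x * (h x - h (-x)) ^ 2 / 4 := by
      have := hS.deriv_cont
      have := hh.smooth.continuous
      fun_prop
    have hpos : ∫ x in (0 : ℝ)..x1, deriv S x * (h x - h (-x)) ^ 2 / 4 ≤ NN S h x1 / 4 := by
      unfold NN
      rw [← intervalIntegral.integral_div]
      have hc2 : Continuous fun x => deriv S x * h x / 4 := by
        have := hS.deriv_cont
        have := hh.smooth.continuous
        fun_prop
      refine intervalIntegral.integral_mono_on hx1 (hc.intervalIntegrable _ _)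
        (hc2.intervalIntegrable _ _) fun s hs => ?_
      have h1 : h (-s) = 0 := hh.zero_left _ (by linarith [hh.x0_nonneg, hs.1])
      rw [h1, sub_zero]
      have h2 := hh.nonneg s
      have h3 := hh.le_one s
      have h4 := (hS.pos s).le
      have h5 : h s ^ 2 ≤ h s := by nlinarith
      have h6 := mul_le_mul_of_nonneg_left h5 h4
      linarith
    have hneg : ∫ x in (-x1)..0, deriv S x * (h x - h (-x)) ^ 2 / 4 =
        ∫ x in (0 : ℝ)..x1, deriv S x * (h x - h (-x)) ^ 2 / 4 := by
      have h1 : ∫ x in (0 : ℝ)..x1, (fun x => deriv S x * (h x - h (-x)) ^ 2 / 4) (-x) =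
          ∫ x in (-x1)..(-0), (fun x => deriv S x * (h x - h (-x)) ^ 2 / 4) x :=
        intervalIntegral.integral_comp_neg (f := fun x => deriv S x * (h x - h (-x)) ^ 2 / 4)
      rw [neg_zero] at h1
      rw [← h1]
      congr 1
      funext s
      simp only [hS.deriv_even, neg_neg]
      ring
    rw [← intervalIntegral.integral_add_adjacent_intervals (hc.intervalIntegrable (-x1) 0)
      (hc.intervalIntegrable 0 x1), hneg]
    linarith
  · intro x hx
    have h1 : h x = 0 := by
      rcases le_abs.1 hx with h2 | h2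
      · exact hh.zero_right x h2
      · exact hh.zero_left x (by linarith [hh.x0_nonneg])
    have h3 : h (-x) = 0 := by
      rcases le_abs.1 hx with h2 | h2
      · exact hh.zero_left _ (by linarith [hh.x0_nonneg])
      · exact hh.zero_right _ h2
    rw [h1, h3]
    ring

lemma tf_nn_le : nn (tf S h x1) ≤ x1 * NN S h x1 ^ 2 / 2 := by
  have hx1 : 0 ≤ x1 := hh.x0_nonneg.trans hh.x01.le
  unfold nn
  rw [integral_real_eq hS hh (x1 := x1)]
  · have hc : Continuous fun x => ‖tf S h x1 x‖ ^ 2 := (tf_tst hS hh).smooth.continuous.norm.pow 2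
    have h1 : ∫ x in (-x1)..x1, ‖tf S h x1 x‖ ^ 2 ≤ ∫ x in (-x1)..x1, (NN S h x1 / 2) ^ 2 := by
      refine intervalIntegral.integral_mono_on (by linarith) (hc.intervalIntegrable _ _)
        intervalIntegrable_const fun s _ => ?_
      exact pow_le_pow_left₀ (norm_nonneg _) (tf_norm_le hS hh s) 2
    rw [intervalIntegral.integral_const, smul_eq_mul] at h1
    refine h1.trans (le_of_eq ?_)
    ring
  · intro x hx
    rw [tf_of_ge hS hh hx, norm_zero]
    norm_num

lemma tf_nn_ge : x0 * NN S h x1 ^ 2 / 2 ≤ nn (tf S h x1) := by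
  have h1 := n_le hS (tf_tst hS hh) (show -x0 ≤ x0 by linarith [hh.x0_nonneg])
  refine le_trans (le_of_eq ?_) h1
  have h2 : ∫ x in (-x0)..x0, ‖tf S h x1 x‖ ^ 2 = ∫ x in (-x0)..x0, (NN S h x1 / 2) ^ 2 := by
    refine intervalIntegral.integral_congr fun s hs => ?_
    rw [uIcc_of_le (show -x0 ≤ x0 by linarith [hh.x0_nonneg])] at hs
    show ‖tf S h x1 s‖ ^ 2 = _
    rw [tf_of_le hS hh (abs_le.2 ⟨hs.1, hs.2⟩), Complex.norm_real, Real.norm_eq_abs, sq_abs]
  rw [h2, intervalIntegral.integral_const, smul_eq_mul]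
  ring

end

/-- Existence of cutoffs with almost full resistance. -/
lemma exists_cut {a b ε : ℝ} (ha : 0 ≤ a) (hε : 0 < ε) (hab : a + 2 * ε ≤ b) :
    ∃ h : ℝ → ℝ, Cut h a b ∧ ∀ s ∈ Icc (a + ε) (b - ε), h s = 1 := by
  refine ⟨fun s => Real.smoothTransition ((s - a) / ε) * Real.smoothTransition ((b - s) / ε),
    ⟨?_, ?_, ?_, ?_, ?_, ha, by linarith⟩, ?_⟩
  · refine ContDiff.mul ?_ ?_
    · exact Real.smoothTransition.contDiff.comp ((contDiff_id.sub contDiff_const).div_const ε)
    · exact Real.smoothTransition.contDiff.comp ((contDiff_const.sub contDiff_id).div_const ε)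
  · intro s
    exact mul_nonneg (Real.smoothTransition.nonneg _) (Real.smoothTransition.nonneg _)
  · intro s
    exact mul_le_one₀ (Real.smoothTransition.le_one _) (Real.smoothTransition.nonneg _)
      (Real.smoothTransition.le_one _)
  · intro s hs
    have : Real.smoothTransition ((s - a) / ε) = 0 :=
      Real.smoothTransition.zero_of_nonpos (div_nonpos_of_nonpos_of_nonneg (by linarith) hε.le)
    simp only [this, zero_mul]
  · intro s hs
    have : Real.smoothTransition ((b - s) / ε) = 0 :=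
      Real.smoothTransition.zero_of_nonpos (div_nonpos_of_nonpos_of_nonneg (by linarith) hε.le)
    simp only [this, mul_zero]
  · intro s hs
    have h1 : Real.smoothTransition ((s - a) / ε) = 1 :=
      Real.smoothTransition.one_of_one_le (by rw [le_div_iff₀ hε]; linarith [hs.1])
    have h2 : Real.smoothTransition ((b - s) / ε) = 1 :=
      Real.smoothTransition.one_of_one_le (by rw [le_div_iff₀ hε]; linarith [hs.2])
    simp only [h1, h2, mul_one]

/-- Lower bound for the resistance of a cutoff. -/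
lemma NN_ge {S h : ℝ → ℝ} {x0 x1 a b : ℝ} (hS : Resist S) (hh : Cut h x0 x1) (ha : 0 ≤ a)
    (hab : a ≤ b) (hb : b ≤ x1) (h1 : ∀ s ∈ Icc a b, h s = 1) : S b - S a ≤ NN S h x1 := by
  have hc : Continuous fun x => deriv S x * h x := hS.deriv_cont.mul hh.smooth.continuous
  have h2 : ∫ s in a..b, deriv S s * h s = S b - S a := by
    rw [← hS.integral_deriv a b]
    refine intervalIntegral.integral_congr fun s hs => ?_
    rw [uIcc_of_le hab] at hs
    show deriv S s * h s = deriv S s
    rw [h1 s hs, mul_one]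
  rw [← h2]
  unfold NN
  refine intervalIntegral.integral_mono_interval ha hab hb
    (Eventually.of_forall fun s => mul_nonneg (hS.pos s).le (hh.nonneg s))
    (hc.intervalIntegrable _ _)

/-- Upper bound for the resistance of a cutoff. -/
lemma NN_le {S h : ℝ → ℝ} {x0 x1 : ℝ} (hS : Resist S) (hh : Cut h x0 x1) :
    NN S h x1 ≤ S x1 := by
  have hx1 : 0 ≤ x1 := hh.x0_nonneg.trans hh.x01.le
  have hc : Continuous fun x => deriv S x * h x := hS.deriv_cont.mul hh.smooth.continuous
  have h2 : S x1 = ∫ s in (0 : ℝ)..x1, deriv S s := by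
    rw [hS.integral_deriv, hS.zero, sub_zero]
  rw [h2]
  unfold NN
  refine intervalIntegral.integral_mono_on hx1 (hc.intervalIntegrable _ _)
    (hS.deriv_cont.intervalIntegrable _ _) fun s _ => ?_
  exact mul_le_of_le_one_right (hS.pos s).le (hh.le_one s)

end Pool.Agent.HeatRatio
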